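import Pool.Agent.MP_69a10d_gt.Defs

-- part MP_69a10d_gt.Calc
section

/-! Calculus rules for `pd` and the scalar curvature as a polynomial in the 2-jet of the metric. -/

open Filter Topology

namespace Pool.Agent.MP_69a10d_gt

theorem pd_congr {F G : E3 → ℝ} {x : E3} (h : F =ᶠ[𝓝 x] G) (i : Fin 3) : pd i F x = pd i G x := by
  simp only [pd, h.fderiv_eq]

theorem pd_of_hasFDerivAt {F : E3 → ℝ} {F' : E3 →L[ℝ] ℝ} {x : E3} (h : HasFDerivAt F F' x)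
    (i : Fin 3) : pd i F x = F' (EuclideanSpace.single i 1) := by
  simp only [pd, h.fderiv]

theorem pd_const (c : ℝ) (i : Fin 3) (x : E3) : pd i (fun _ => c) x = 0 := by
  simp [pd]

theorem pd_add {F G : E3 → ℝ} {x : E3} (hF : DifferentiableAt ℝ F x) (hG : DifferentiableAt ℝ G x)
    (i : Fin 3) : pd i (fun y => F y + G y) x = pd i F x + pd i G x := by
  rw [pd_of_hasFDerivAt (hF.hasFDerivAt.fun_add hG.hasFDerivAt)]; simp [pd]

theorem pd_sub {F G : E3 → ℝ} {x : E3} (hF : DifferentiableAt ℝ F x) (hG : DifferentiableAt ℝ G x)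
    (i : Fin 3) : pd i (fun y => F y - G y) x = pd i F x - pd i G x := by
  rw [pd_of_hasFDerivAt (hF.hasFDerivAt.fun_sub hG.hasFDerivAt)]; simp [pd]

theorem pd_mul {F G : E3 → ℝ} {x : E3} (hF : DifferentiableAt ℝ F x) (hG : DifferentiableAt ℝ G x)
    (i : Fin 3) : pd i (fun y => F y * G y) x = pd i F x * G x + F x * pd i G x := by
  rw [pd_of_hasFDerivAt (hF.hasFDerivAt.fun_mul hG.hasFDerivAt)]; simp [pd]; ring

theorem pd_const_mul {F : E3 → ℝ} {x : E3} (hF : DifferentiableAt ℝ F x) (c : ℝ)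
    (i : Fin 3) : pd i (fun y => c * F y) x = c * pd i F x := by
  rw [pd_mul (differentiableAt_const c) hF, pd_const]; ring

theorem pd_sum3 {F : Fin 3 → E3 → ℝ} {x : E3} (hF : ∀ l, DifferentiableAt ℝ (F l) x)
    (i : Fin 3) : pd i (fun y => ∑ l, F l y) x = ∑ l, pd i (F l) x := by
  simp only [Fin.sum_univ_three]
  rw [pd_add ((hF 0).fun_add (hF 1)) (hF 2), pd_add (hF 0) (hF 1)]

theorem hasFDerivAt_coord (j : Fin 3) (x : E3) :
    HasFDerivAt (fun y : E3 => y j) (EuclideanSpace.proj j : E3 →L[ℝ] ℝ) x :=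
  (EuclideanSpace.proj j : E3 →L[ℝ] ℝ).hasFDerivAt

theorem fderiv_apply_eq_sum (F : E3 → ℝ) (x v : E3) :
    fderiv ℝ F x v = ∑ i, v i * pd i F x := by
  have hv : v = ∑ i, v i • EuclideanSpace.single i (1 : ℝ) := by
    ext j; fin_cases j <;> simp [Fin.sum_univ_three]
  conv_lhs => rw [hv]
  simp [pd, map_sum]

noncomputable def gamA (A : Matrix (Fin 3) (Fin 3) ℝ) (d : Fin 3 → Fin 3 → Fin 3 → ℝ)
    (i j k : Fin 3) : ℝ :=
  (1 / 2) * ∑ l, A i l * (d j l k + d k l j - d l j k)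

noncomputable def dinvA (A : Matrix (Fin 3) (Fin 3) ℝ) (d : Fin 3 → Fin 3 → Fin 3 → ℝ)
    (m i l : Fin 3) : ℝ :=
  - ∑ a, ∑ b, A i a * d m a b * A b l

noncomputable def dgamA (A : Matrix (Fin 3) (Fin 3) ℝ) (d : Fin 3 → Fin 3 → Fin 3 → ℝ)
    (dd : Fin 3 → Fin 3 → Fin 3 → Fin 3 → ℝ) (m i j k : Fin 3) : ℝ :=
  (1 / 2) * ∑ l, (dinvA A d m i l * (d j l k + d k l j - d l j k) +
    A i l * (dd m j l k + dd m k l j - dd m l j k))

noncomputable def scalA (A : Matrix (Fin 3) (Fin 3) ℝ) (d : Fin 3 → Fin 3 → Fin 3 → ℝ)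
    (dd : Fin 3 → Fin 3 → Fin 3 → Fin 3 → ℝ) : ℝ :=
  ∑ j, ∑ k, A j k * ∑ i, (dgamA A d dd i i j k - dgamA A d dd k i i j +
    ∑ l, (gamA A d i i l * gamA A d l j k - gamA A d i k l * gamA A d l i j))

theorem christoffel_eq (g : Met) (i j k : Fin 3) (x : E3) :
    christoffel g i j k x = gamA (g x)⁻¹ (fun m a b => pd m (fun y => g y a b) x) i j k := rfl

section
variable {g : Met} {x : E3} (h1 : ∀ i j, DifferentiableAt ℝ (fun y => g y i j) x)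
  (hdet : (g x).det ≠ 0)
include h1

theorem differentiableAt_det : DifferentiableAt ℝ (fun y => (g y).det) x := by
  simp only [Matrix.det_fin_three]
  have := h1 0 0; have := h1 0 1; have := h1 0 2; have := h1 1 0; have := h1 1 1
  have := h1 1 2; have := h1 2 0; have := h1 2 1; have := h1 2 2
  fun_prop

include hdet

theorem differentiableAt_inv_entry (i j : Fin 3) :
    DifferentiableAt ℝ (fun y => (g y)⁻¹ i j) x := by
  have hd := (differentiableAt_det h1).inv hdet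
  have := h1 0 0; have := h1 0 1; have := h1 0 2; have := h1 1 0; have := h1 1 1
  have := h1 1 2; have := h1 2 0; have := h1 2 1; have := h1 2 2
  have e : (fun y => (g y)⁻¹ i j) = fun y => ((g y).det)⁻¹ * (g y).adjugate i j := by
    funext y; simp [Matrix.inv_def]
  rw [e]
  refine DifferentiableAt.mul hd ?_
  simp only [Matrix.adjugate_fin_three]
  fin_cases i <;> fin_cases j <;> simp <;> fun_prop

theorem pd_inv_entry (m i l : Fin 3) :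
    pd m (fun y => (g y)⁻¹ i l) x = dinvA (g x)⁻¹ (fun m a b => pd m (fun y => g y a b) x) m i l := by
  have hev : ∀ᶠ y in 𝓝 x, (g y).det ≠ 0 :=
    (differentiableAt_det h1).continuousAt.eventually_ne hdet
  let D : Matrix (Fin 3) (Fin 3) ℝ := Matrix.of fun a b => pd m (fun y => g y a b) x
  let D' : Matrix (Fin 3) (Fin 3) ℝ := Matrix.of fun a b => pd m (fun y => (g y)⁻¹ a b) x
  have key : D * (g x)⁻¹ + g x * D' = 0 := by
    ext a c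
    have e : (fun y => ∑ b, g y a b * (g y)⁻¹ b c) =ᶠ[𝓝 x]
        fun _ => (1 : Matrix (Fin 3) (Fin 3) ℝ) a c := by
      filter_upwards [hev] with y hy
      rw [← Matrix.mul_nonsing_inv (g y) (Ne.isUnit hy), Matrix.mul_apply]
    have e2 := pd_congr e m
    rw [pd_const, pd_sum3 (fun b => (h1 a b).fun_mul (differentiableAt_inv_entry h1 hdet b c))] at e2
    simp only [pd_mul (h1 a _) (differentiableAt_inv_entry h1 hdet _ c)] at e2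
    simp only [Matrix.add_apply, Matrix.mul_apply, D, D', Matrix.of_apply, Matrix.zero_apply]
    rw [← e2, Finset.sum_add_distrib]
  have key2 : D' = -((g x)⁻¹ * D * (g x)⁻¹) := by
    have h3 : (g x)⁻¹ * (D * (g x)⁻¹ + g x * D') = 0 := by rw [key, Matrix.mul_zero]
    rw [Matrix.mul_add, ← Matrix.mul_assoc, ← Matrix.mul_assoc,
      Matrix.nonsing_inv_mul (g x) (Ne.isUnit hdet), Matrix.one_mul] at h3
    exact eq_neg_of_add_eq_zero_right h3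
  have := congrFun (congrFun key2 i) l
  simp only [D', D, Matrix.of_apply, Matrix.neg_apply, Matrix.mul_apply] at this
  rw [this, dinvA, Finset.sum_comm]
  simp only [Finset.sum_mul]

theorem scal_eq_scalA (h2 : ∀ k i j, DifferentiableAt ℝ (pd k (fun y => g y i j)) x) :
    scal g x = scalA (g x)⁻¹ (fun m a b => pd m (fun y => g y a b) x)
      (fun n m a b => pd n (pd m (fun y => g y a b)) x) := by
  have key : ∀ m i j k, pd m (christoffel g i j k) x =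
      dgamA (g x)⁻¹ (fun m a b => pd m (fun y => g y a b) x)
        (fun n m a b => pd n (pd m (fun y => g y a b)) x) m i j k := by
    intro m i j k
    have hd : ∀ l, DifferentiableAt ℝ (fun y => pd j (fun y => g y l k) y +
        pd k (fun y => g y l j) y - pd l (fun y => g y j k) y) x :=
      fun l => ((h2 j l k).add (h2 k l j)).sub (h2 l j k)
    have hi := fun l => differentiableAt_inv_entry h1 hdet i l
    unfold christoffel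
    rw [pd_const_mul (by
      simp only [Fin.sum_univ_three]
      exact (((hi 0).mul (hd 0)).add ((hi 1).mul (hd 1))).add ((hi 2).mul (hd 2))),
      pd_sum3 (fun l => (hi l).fun_mul (hd l)), dgamA]
    congr 1
    refine Finset.sum_congr rfl (fun l _ => ?_)
    rw [pd_mul (hi l) (hd l), pd_inv_entry h1 hdet, pd_sub ((h2 j l k).fun_add (h2 k l j)) (h2 l j k),
      pd_add (h2 j l k) (h2 k l j)]
  simp only [scal, ricci, scalA, key, christoffel_eq]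

end

end Pool.Agent.MP_69a10d_gt

end

-- part MP_69a10d_gt.Alg
section

/-! The scalar curvature of axially symmetric metrics `P δ + S ω ⊗ ω` in terms of jets. -/

open Filter Topology

namespace Pool.Agent.MP_69a10d_gt

/-- 2-jets of axially symmetric functions: `u` stands for `(1/ρ) ∂_ρ`, `z` for `∂_z`. -/
structure J where
  v : ℝ
  u : ℝ
  z : ℝ
  uu : ℝ
  uz : ℝ
  zz : ℝ

def J.d (F : J) (a b : ℝ) : Fin 3 → ℝ := ![a * F.u, b * F.u, F.z]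
def J.dd (F : J) (a b : ℝ) : Fin 3 → Fin 3 → ℝ :=
  ![![F.u + a * a * F.uu, a * b * F.uu, a * F.uz], ![a * b * F.uu, F.u + b * b * F.uu, b * F.uz],
    ![a * F.uz, b * F.uz, F.zz]]
def W (a b : ℝ) : Fin 3 → Fin 3 → ℝ := ![![b * b, -(a * b), 0], ![-(a * b), a * a, 0], ![0, 0, 0]]
def dW (a b : ℝ) : Fin 3 → Fin 3 → Fin 3 → ℝ :=
  ![![![0, -b, 0], ![-b, 2 * a, 0], ![0, 0, 0]], ![![2 * b, -a, 0], ![-a, 0, 0], ![0, 0, 0]],
    ![![0, 0, 0], ![0, 0, 0], ![0, 0, 0]]]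
def ddW : Fin 3 → Fin 3 → Fin 3 → Fin 3 → ℝ :=
  ![![![![0, 0, 0], ![0, 2, 0], ![0, 0, 0]], ![![0, -1, 0], ![-1, 0, 0], ![0, 0, 0]],
      ![![0, 0, 0], ![0, 0, 0], ![0, 0, 0]]],
    ![![![0, -1, 0], ![-1, 0, 0], ![0, 0, 0]], ![![2, 0, 0], ![0, 0, 0], ![0, 0, 0]],
      ![![0, 0, 0], ![0, 0, 0], ![0, 0, 0]]],
    ![![![0, 0, 0], ![0, 0, 0], ![0, 0, 0]], ![![0, 0, 0], ![0, 0, 0], ![0, 0, 0]],
      ![![0, 0, 0], ![0, 0, 0], ![0, 0, 0]]]]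
def dl : Fin 3 → Fin 3 → ℝ := ![![1, 0, 0], ![0, 1, 0], ![0, 0, 1]]

/-- the right-hand side of the scalar curvature formula, `u = a^2 + b^2` -/
noncomputable def scalR (P S : J) (u A B : ℝ) : ℝ :=
  -(2 * A) * ((u * P.uu + P.u + P.zz) * A / 2 - (u * P.u ^ 2 + P.z ^ 2) * A ^ 2 / 2
    + (u * (P.uu + 4 * S.u + u * S.uu) + 3 * (P.u + 2 * S.v + u * S.u) + (P.zz + u * S.zz)) * B / 2
    - (u * (P.u + 2 * S.v + u * S.u) ^ 2 + (P.z + u * S.z) ^ 2) * B ^ 2 / 4)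

theorem scalA_axi (P S : J) (a b A B : ℝ) (hA : A * P.v = 1)
    (hB : B * (P.v + S.v * (a * a + b * b)) = 1) :
    scalA (Matrix.of fun i j => A * (dl i j - S.v * B * W a b i j))
      (fun k i j => P.d a b k * dl i j + S.d a b k * W a b i j + S.v * dW a b k i j)
      (fun m k i j => P.dd a b m k * dl i j + S.dd a b m k * W a b i j + S.d a b k * dW a b m i j +
        S.d a b m * dW a b k i j + S.v * ddW m k i j) = scalR P S (a * a + b * b) A B := by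
  have h : A * B * S.v * a * a = A - B - A * B * S.v * b * b := by
    linear_combination A * hB - B * hA
  simp only [scalA, dgamA, dinvA, gamA, Fin.sum_univ_three, Matrix.of_apply, scalR]
  simp only [J.d, J.dd, W, dW, ddW, dl, Matrix.cons_val_zero, Matrix.cons_val_one,
    Matrix.cons_val_two, Matrix.head_cons, Matrix.tail_cons, mul_zero, zero_mul, add_zero, zero_add,
    mul_one, sub_zero, neg_zero]
  linear_combination (
    (1/2)*A^2*B*a^8*S.v*S.u^2 + (2)*A^2*B*a^6*b^2*S.v*S.u^2 + (2)*A^2*B*a^6*S.v^2*S.u +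
    (1)*A^2*B*a^6*S.v*S.u*P.u + (1/2)*A^2*B*a^6*S.v*S.z^2 + (3)*A^2*B*a^4*b^4*S.v*S.u^2 +
    (6)*A^2*B*a^4*b^2*S.v^2*S.u + (3)*A^2*B*a^4*b^2*S.v*S.u*P.u + (3/2)*A^2*B*a^4*b^2*S.v*S.z^2
    + (2)*A^2*B*a^4*S.v^3 + (2)*A^2*B*a^4*S.v^2*P.u + (1)*A^2*B*a^4*S.v*S.z*P.z +
    (1/2)*A^2*B*a^4*S.v*P.u^2 + (2)*A^2*B*a^2*b^6*S.v*S.u^2 + (6)*A^2*B*a^2*b^4*S.v^2*S.u +
    (3)*A^2*B*a^2*b^4*S.v*S.u*P.u + (3/2)*A^2*B*a^2*b^4*S.v*S.z^2 + (4)*A^2*B*a^2*b^2*S.v^3 +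
    (4)*A^2*B*a^2*b^2*S.v^2*P.u + (2)*A^2*B*a^2*b^2*S.v*S.z*P.z + (1)*A^2*B*a^2*b^2*S.v*P.u^2 +
    (1/2)*A^2*B*a^2*S.v*P.z^2 + (1/2)*A^2*B*b^8*S.v*S.u^2 + (2)*A^2*B*b^6*S.v^2*S.u +
    (1)*A^2*B*b^6*S.v*S.u*P.u + (1/2)*A^2*B*b^6*S.v*S.z^2 + (2)*A^2*B*b^4*S.v^3 +
    (2)*A^2*B*b^4*S.v^2*P.u + (1)*A^2*B*b^4*S.v*S.z*P.z + (1/2)*A^2*B*b^4*S.v*P.u^2 +
    (1/2)*A^2*B*b^2*S.v*P.z^2 + (-1/2)*A^2*a^6*S.u^2 + (-3/2)*A^2*a^4*b^2*S.u^2 +
    (-2)*A^2*a^4*S.v*S.u + (-1)*A^2*a^4*S.u*P.u + (-1/2)*A^2*a^4*S.z^2 +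
    (-3/2)*A^2*a^2*b^4*S.u^2 + (-4)*A^2*a^2*b^2*S.v*S.u + (-2)*A^2*a^2*b^2*S.u*P.u +
    (-1)*A^2*a^2*b^2*S.z^2 + (-2)*A^2*a^2*S.v^2 + (-2)*A^2*a^2*S.v*P.u + (-1)*A^2*a^2*S.z*P.z +
    (-1/2)*A^2*a^2*P.u^2 + (-1/2)*A^2*b^6*S.u^2 + (-2)*A^2*b^4*S.v*S.u + (-1)*A^2*b^4*S.u*P.u +
    (-1/2)*A^2*b^4*S.z^2 + (-2)*A^2*b^2*S.v^2 + (-2)*A^2*b^2*S.v*P.u + (-1)*A^2*b^2*S.z*P.z +
    (-1/2)*A^2*b^2*P.u^2 + (-1/2)*A^2*P.z^2 + (-1/2)*A*B*a^6*S.u^2 + (-3/2)*A*B*a^4*b^2*S.u^2 +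
    (-2)*A*B*a^4*S.v*S.u + (-1)*A*B*a^4*S.u*P.u + (-1/2)*A*B*a^4*S.z^2 +
    (-3/2)*A*B*a^2*b^4*S.u^2 + (-4)*A*B*a^2*b^2*S.v*S.u + (-2)*A*B*a^2*b^2*S.u*P.u +
    (-1)*A*B*a^2*b^2*S.z^2 + (-2)*A*B*a^2*S.v^2 + (-2)*A*B*a^2*S.v*P.u + (-1)*A*B*a^2*S.z*P.z +
    (-1/2)*A*B*a^2*P.u^2 + (-1/2)*A*B*b^6*S.u^2 + (-2)*A*B*b^4*S.v*S.u + (-1)*A*B*b^4*S.u*P.u +
    (-1/2)*A*B*b^4*S.z^2 + (-2)*A*B*b^2*S.v^2 + (-2)*A*B*b^2*S.v*P.u + (-1)*A*B*b^2*S.z*P.z +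
    (-1/2)*A*B*b^2*P.u^2 + (-1/2)*A*B*P.z^2 + (1)*A*a^4*S.uu + (2)*A*a^2*b^2*S.uu +
    (7)*A*a^2*S.u + (1)*A*a^2*S.zz + (1)*A*a^2*P.uu + (1)*A*b^4*S.uu + (7)*A*b^2*S.u +
    (1)*A*b^2*S.zz + (1)*A*b^2*P.uu + (6)*A*S.v + (3)*A*P.u + (1)*A*P.zz) * h

end Pool.Agent.MP_69a10d_gt

end
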