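import Pool.Agent.MP_69a10d_gt.Mg.Alg
import Pool.Agent.Lib.BiPoly.Basic

/-! Derivatives of axially symmetric functions on the punctured space. -/

open Filter Topology

namespace Pool.Agent.MP_69a10d_gt
open Pool.Agent.Lib.BiPoly

noncomputable def pr (j : Fin 3) : E3 →L[ℝ] ℝ := EuclideanSpace.proj j

@[simp] theorem pr_apply (j : Fin 3) (v : E3) : pr j v = v j := rfl

def Ax (F Fu Fz : E3 → ℝ) : Prop :=
  ∀ y : E3, y ≠ 0 → HasFDerivAt F (Fu y • (y 0 • pr 0 + y 1 • pr 1) + Fz y • pr 2) y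

theorem Ax.congr {F Fu Fz G Gu Gz : E3 → ℝ} (h : Ax F Fu Fz) (h0 : ∀ y, y ≠ 0 → G y = F y)
    (h1 : ∀ y, y ≠ 0 → Gu y = Fu y) (h2 : ∀ y, y ≠ 0 → Gz y = Fz y) : Ax G Gu Gz := by
  intro y hy
  rw [h1 y hy, h2 y hy]
  refine (h y hy).congr_of_eventuallyEq ?_
  filter_upwards [isOpen_ne.mem_nhds hy] with w hw using h0 w hw

theorem Ax.const (c : ℝ) : Ax (fun _ => c) (fun _ => 0) (fun _ => 0) := by
  intro y _
  simpa using hasFDerivAt_const c y

theorem Ax.add {F Fu Fz G Gu Gz : E3 → ℝ} (h : Ax F Fu Fz) (h' : Ax G Gu Gz) :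
    Ax (fun y => F y + G y) (fun y => Fu y + Gu y) (fun y => Fz y + Gz y) := by
  intro y hy
  refine ((h y hy).fun_add (h' y hy)).congr_fderiv ?_
  ext v; simp; ring

theorem Ax.mul {F Fu Fz G Gu Gz : E3 → ℝ} (h : Ax F Fu Fz) (h' : Ax G Gu Gz) :
    Ax (fun y => F y * G y) (fun y => Fu y * G y + F y * Gu y) (fun y => Fz y * G y + F y * Gz y) := by
  intro y hy
  refine ((h y hy).fun_mul (h' y hy)).congr_fderiv ?_
  ext v; simp; ring

theorem Ax.cmul {F Fu Fz : E3 → ℝ} (c : ℝ) (h : Ax F Fu Fz) :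
    Ax (fun y => c * F y) (fun y => c * Fu y) (fun y => c * Fz y) :=
  ((Ax.const c).mul h).congr (fun _ _ => rfl) (fun _ _ => by ring) (fun _ _ => by ring)

theorem ax_z : Ax (fun y => y 2) (fun _ => 0) (fun _ => 1) := by
  intro y _
  refine HasFDerivAt.congr_fderiv (pr 2).hasFDerivAt ?_
  simp

theorem ax_u : Ax (fun y => y 0 * y 0 + y 1 * y 1) (fun _ => 2) (fun _ => 0) := by
  intro y _
  refine (((pr 0).hasFDerivAt.fun_mul (pr 0).hasFDerivAt).fun_add
    ((pr 1).hasFDerivAt.fun_mul (pr 1).hasFDerivAt)).congr_fderiv ?_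
  ext v; simp; ring

theorem norm_sq_eq (y : E3) : ‖y‖ ^ 2 = y 0 * y 0 + y 1 * y 1 + y 2 * y 2 := by
  rw [EuclideanSpace.norm_sq_eq]; simp [Fin.sum_univ_three]; ring

/-- the inverse radius -/
noncomputable def xi (y : E3) : ℝ := ‖y‖⁻¹
/-- the squared sine of the polar angle -/
noncomputable def ss (y : E3) : ℝ := (y 0 * y 0 + y 1 * y 1) * (xi y * xi y)

theorem xi_rel {y : E3} (hy : y ≠ 0) :
    xi y * xi y * (y 0 * y 0 + y 1 * y 1 + y 2 * y 2) = 1 := by
  have : ‖y‖ ≠ 0 := norm_ne_zero_iff.2 hy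
  rw [← norm_sq_eq, xi]; field_simp

theorem xi_pos {y : E3} (hy : y ≠ 0) : 0 < xi y := inv_pos.2 (norm_pos_iff.2 hy)
theorem xi_nonneg (y : E3) : 0 ≤ xi y := inv_nonneg.2 (norm_nonneg y)
theorem xi_le_one {y : E3} (hy : 1 ≤ ‖y‖) : xi y ≤ 1 := inv_le_one_of_one_le₀ hy
theorem ss_nonneg (y : E3) : 0 ≤ ss y := by
  unfold ss; have := mul_self_nonneg (y 0); have := mul_self_nonneg (y 1)
  have := mul_self_nonneg (xi y); positivity
theorem ss_le_one (y : E3) : ss y ≤ 1 := by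
  by_cases hy : y = 0
  · simp [ss, hy]
  have := xi_rel hy
  have h2 : 0 ≤ xi y * xi y * (y 2 * y 2) := mul_nonneg (mul_self_nonneg _) (mul_self_nonneg _)
  unfold ss; nlinarith

theorem hasFDerivAt_norm' {y : E3} (hy : y ≠ 0) :
    HasFDerivAt (fun w : E3 => ‖w‖) (xi y • (y 0 • pr 0 + y 1 • pr 1 + y 2 • pr 2)) y := by
  have hn : ‖y‖ ≠ 0 := norm_ne_zero_iff.2 hy
  have h1 := ((ax_u.add (ax_z.mul ax_z)) y hy).sqrt (by
    rw [← norm_sq_eq]; positivity)
  have e : (fun w : E3 => ‖w‖) = fun w => √(w 0 * w 0 + w 1 * w 1 + w 2 * w 2) := by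
    funext w; rw [← norm_sq_eq, Real.sqrt_sq (norm_nonneg _)]
  rw [e]
  refine h1.congr_fderiv ?_
  rw [← norm_sq_eq, Real.sqrt_sq (norm_nonneg _)]
  ext v; simp [xi]; field_simp; ring

theorem ax_xi : Ax xi (fun y => -(xi y) ^ 3) (fun y => -(y 2 * (xi y) ^ 3)) := by
  intro y hy
  have hn : ‖y‖ ≠ 0 := norm_ne_zero_iff.2 hy
  have h1 := (hasDerivAt_inv hn).comp_hasFDerivAt y (hasFDerivAt_norm' hy)
  refine HasFDerivAt.congr_fderiv h1 ?_
  ext v; simp [xi]; field_simp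

theorem ax_ss : Ax ss (fun y => 2 * xi y ^ 2 * (1 - ss y)) (fun y => -(2 * y 2 * xi y ^ 2 * ss y)) :=
  (ax_u.mul (ax_xi.mul ax_xi)).congr (fun _ _ => rfl)
    (fun y _ => by unfold ss; ring)
    (fun y _ => by unfold ss; ring)

/-- a polynomial in `xi` and `ss` -/
noncomputable def evF (L : List (List ℤ)) (y : E3) : ℝ := ev L (xi y) (ss y)

theorem ax_evF (L : List (List ℤ)) : Ax (evF L)
    (fun y => xi y ^ 2 * (-evF (eul L) y + 2 * (1 - ss y) * evF (dY L) y))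
    (fun y => y 2 * xi y ^ 2 * (-evF (eul L) y - 2 * ss y * evF (dY L) y)) := by
  intro y hy
  refine (hasFDerivAt_ev (ax_xi y hy) (ax_ss y hy) L).congr_fderiv ?_
  ext v; simp [evF, ev_eul]; ring

structure Jet2 (F : E3 → ℝ) (j : E3 → J) : Prop where
  v : ∀ y, y ≠ 0 → F y = (j y).v
  a0 : Ax F (fun y => (j y).u) (fun y => (j y).z)
  a1 : Ax (fun y => (j y).u) (fun y => (j y).uu) (fun y => (j y).uz)
  a2 : Ax (fun y => (j y).z) (fun y => (j y).uz) (fun y => (j y).zz)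

def J.mul (a b : J) : J :=
  ⟨a.v * b.v, a.u * b.v + a.v * b.u, a.z * b.v + a.v * b.z,
    a.uu * b.v + 2 * a.u * b.u + a.v * b.uu, a.uz * b.v + a.u * b.z + a.z * b.u + a.v * b.uz,
    a.zz * b.v + 2 * a.z * b.z + a.v * b.zz⟩
def J.add (a b : J) : J :=
  ⟨a.v + b.v, a.u + b.u, a.z + b.z, a.uu + b.uu, a.uz + b.uz, a.zz + b.zz⟩

theorem Jet2.a0' {F : E3 → ℝ} {j : E3 → J} (h : Jet2 F j) :
    Ax (fun y => (j y).v) (fun y => (j y).u) (fun y => (j y).z) :=
  h.a0.congr (fun y hy => (h.v y hy).symm) (fun _ _ => rfl) (fun _ _ => rfl)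

theorem Jet2.add {F G : E3 → ℝ} {j k : E3 → J} (h : Jet2 F j) (h' : Jet2 G k) :
    Jet2 (fun y => F y + G y) (fun y => (j y).add (k y)) :=
  ⟨fun y hy => by simp [J.add, h.v y hy, h'.v y hy], h.a0.add h'.a0, h.a1.add h'.a1, h.a2.add h'.a2⟩

theorem Jet2.mul {F G : E3 → ℝ} {j k : E3 → J} (h : Jet2 F j) (h' : Jet2 G k) :
    Jet2 (fun y => F y * G y) (fun y => (j y).mul (k y)) :=
  ⟨fun y hy => by simp [J.mul, h.v y hy, h'.v y hy],
    (h.a0'.mul h'.a0').congr (fun y hy => by rw [h.v y hy, h'.v y hy]) (fun _ _ => rfl)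
      (fun _ _ => rfl),
    ((h.a1.mul h'.a0').add (h.a0'.mul h'.a1)).congr (fun _ _ => rfl)
      (fun _ _ => by simp only [J.mul]; ring) (fun _ _ => by simp only [J.mul]; ring),
    ((h.a2.mul h'.a0').add (h.a0'.mul h'.a2)).congr (fun _ _ => rfl)
      (fun _ _ => by simp only [J.mul]; ring) (fun _ _ => by simp only [J.mul]; ring)⟩

/-- the jet of a function of `(xi, ss)` from its derivatives in these variables -/
def Jev (x s z x1 x2 x3 x4 x5 x6 : ℝ) : J :=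
  ⟨x1, x ^ 2 * (-x2 + 2 * (1 - s) * x4), z * x ^ 2 * (-x2 - 2 * s * x4),
    x ^ 4 * (2 * x2 - 8 * (1 - s) * x4 + x3 - 4 * (1 - s) * x5 + 4 * (1 - s) ^ 2 * x6),
    z * x ^ 4 * (2 * x2 + (8 * s - 4) * x4 + x3 + (4 * s - 2) * x5 - 4 * s * (1 - s) * x6),
    x ^ 2 * (-x2 - 2 * s * x4) +
      z ^ 2 * x ^ 4 * (2 * x2 + 8 * s * x4 + x3 + 4 * s * x5 + 4 * s ^ 2 * x6)⟩

noncomputable def JevF (c : ℝ) (L : List (List ℤ)) (y : E3) : J :=
  Jev (xi y) (ss y) (y 2) (c * evF L y) (c * evF (eul L) y) (c * evF (eul (eul L)) y)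
    (c * evF (dY L) y) (c * evF (dY (eul L)) y) (c * evF (dY (dY L)) y)

theorem jet2_evF (c : ℝ) (L : List (List ℤ))
    (hL : ∀ x y, ev (eul (dY L)) x y = ev (dY (eul L)) x y) :
    Jet2 (fun y => c * evF L y) (JevF c L) := by
  have hL' : ∀ y, evF (eul (dY L)) y = evF (dY (eul L)) y := fun y => hL _ _
  refine ⟨fun _ _ => rfl, ((ax_evF L).cmul c).congr (fun _ _ => rfl)
    (fun _ _ => by simp only [JevF, Jev]; ring) (fun _ _ => by simp only [JevF, Jev]; ring), ?_, ?_⟩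
  · refine (((ax_xi.mul ax_xi).mul (((ax_evF (eul L)).cmul (-1)).add
      ((((Ax.const 1).add (ax_ss.cmul (-1))).cmul 2).mul (ax_evF (dY L))))).cmul c).congr
      (fun _ _ => ?_) (fun _ _ => ?_) (fun _ _ => ?_) <;> simp only [JevF, Jev, hL'] <;> ring
  · refine (((ax_z.mul (ax_xi.mul ax_xi)).mul (((ax_evF (eul L)).cmul (-1)).add
      ((ax_ss.cmul (-2)).mul (ax_evF (dY L))))).cmul c).congr
      (fun _ _ => ?_) (fun _ _ => ?_) (fun _ _ => ?_) <;> simp only [JevF, Jev, hL'] <;> ring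

theorem jet2_ss : Jet2 ss (fun y => Jev (xi y) (ss y) (y 2) (ss y) 0 0 1 0 0) := by
  have := jet2_evF 1 [[0, 1]] (fun x y => ev_eq_of_isZero (by decide +kernel) x y)
  have e1 : ∀ y, evF [[0, 1]] y = ss y := fun y => by simp [evF]
  have e2 : ∀ y, evF (eul [[0, 1]]) y = 0 := fun y => ev_eq_zero _ _ _ (by decide +kernel)
  have e3 : ∀ y, evF (eul (eul [[0, 1]])) y = 0 := fun y => ev_eq_zero _ _ _ (by decide +kernel)
  have e4 : ∀ y, evF (dY [[0, 1]]) y = 1 := fun y => by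
    rw [evF, ev_eq_of_isZero (Q := [[1]]) (by decide +kernel)]; simp
  have e5 : ∀ y, evF (dY (eul [[0, 1]])) y = 0 := fun y => ev_eq_zero _ _ _ (by decide +kernel)
  have e6 : ∀ y, evF (dY (dY [[0, 1]])) y = 0 := fun y => ev_eq_zero _ _ _ (by decide +kernel)
  unfold JevF at this
  simpa only [e1, e2, e3, e4, e5, e6, one_mul] using this

theorem jet2_negxi2 : Jet2 (fun y => -(xi y ^ 2))
    (fun y => Jev (xi y) (ss y) (y 2) (-(xi y ^ 2)) (-(2 * xi y ^ 2)) (-(4 * xi y ^ 2)) 0 0 0) := by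
  have := jet2_evF (-1) [[], [], [1]] (fun x y => ev_eq_of_isZero (by decide +kernel) x y)
  have e1 : ∀ y, evF [[], [], [1]] y = xi y ^ 2 := fun y => by simp [evF]; ring
  have e2 : ∀ y, evF (eul [[], [], [1]]) y = 2 * xi y ^ 2 := fun y => by
    rw [evF, ev_eq_of_isZero (Q := [[], [], [2]]) (by decide +kernel)]; simp; ring
  have e3 : ∀ y, evF (eul (eul [[], [], [1]])) y = 4 * xi y ^ 2 := fun y => by
    rw [evF, ev_eq_of_isZero (Q := [[], [], [4]]) (by decide +kernel)]; simp; ring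
  have e4 : ∀ y, evF (dY [[], [], [1]]) y = 0 := fun y => ev_eq_zero _ _ _ (by decide +kernel)
  have e5 : ∀ y, evF (dY (eul [[], [], [1]])) y = 0 := fun y => ev_eq_zero _ _ _ (by decide +kernel)
  have e6 : ∀ y, evF (dY (dY [[], [], [1]])) y = 0 := fun y => ev_eq_zero _ _ _ (by decide +kernel)
  unfold JevF at this
  simpa only [e1, e2, e3, e4, e5, e6, neg_one_mul, mul_zero, neg_zero] using this

theorem Ax.pd_eq {F Fu Fz : E3 → ℝ} (h : Ax F Fu Fz) {y : E3} (hy : y ≠ 0) (k : Fin 3) :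
    pd k F y = ![y 0 * Fu y, y 1 * Fu y, Fz y] k := by
  rw [pd_of_hasFDerivAt (h y hy)]
  fin_cases k <;> simp <;> ring

theorem Ax.diff {F Fu Fz : E3 → ℝ} (h : Ax F Fu Fz) {y : E3} (hy : y ≠ 0) :
    DifferentiableAt ℝ F y := (h y hy).differentiableAt

theorem pd_coord (k j : Fin 3) (y : E3) : pd k (fun w : E3 => w j) y = dl k j := by
  rw [pd_of_hasFDerivAt (hasFDerivAt_coord j y)]
  fin_cases k <;> fin_cases j <;> simp [dl]

theorem diff_coord (j : Fin 3) (y : E3) : DifferentiableAt ℝ (fun w : E3 => w j) y :=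
  (hasFDerivAt_coord j y).differentiableAt

theorem Jet2.diff {F : E3 → ℝ} {j : E3 → J} (h : Jet2 F j) {y : E3} (hy : y ≠ 0) :
    DifferentiableAt ℝ F y := h.a0.diff hy

theorem Jet2.pd_eq {F : E3 → ℝ} {j : E3 → J} (h : Jet2 F j) {y : E3} (hy : y ≠ 0) (k : Fin 3) :
    pd k F y = (j y).d (y 0) (y 1) k := h.a0.pd_eq hy k

theorem Jet2.diff_d {F : E3 → ℝ} {j : E3 → J} (h : Jet2 F j) {y : E3} (hy : y ≠ 0) (k : Fin 3) :
    DifferentiableAt ℝ (fun w => (j w).d (w 0) (w 1) k) y := by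
  fin_cases k
  · exact (diff_coord 0 y).fun_mul (h.a1.diff hy)
  · exact (diff_coord 1 y).fun_mul (h.a1.diff hy)
  · exact h.a2.diff hy

theorem Jet2.pd_d {F : E3 → ℝ} {j : E3 → J} (h : Jet2 F j) {y : E3} (hy : y ≠ 0) (m k : Fin 3) :
    pd m (fun w => (j w).d (w 0) (w 1) k) y = (j y).dd (y 0) (y 1) m k := by
  fin_cases k
  · show pd m (fun w => w 0 * (j w).u) y = _
    rw [pd_mul (diff_coord 0 y) (h.a1.diff hy), pd_coord, h.a1.pd_eq hy]
    fin_cases m <;> simp [dl, J.dd] <;> ring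
  · show pd m (fun w => w 1 * (j w).u) y = _
    rw [pd_mul (diff_coord 1 y) (h.a1.diff hy), pd_coord, h.a1.pd_eq hy]
    fin_cases m <;> simp [dl, J.dd] <;> ring
  · show pd m (fun w => (j w).z) y = _
    rw [h.a2.pd_eq hy]
    fin_cases m <;> simp [J.dd]

theorem diff_W (i j : Fin 3) (y : E3) : DifferentiableAt ℝ (fun w : E3 => W (w 0) (w 1) i j) y := by
  fin_cases i <;> fin_cases j <;> simp [W] <;> fun_prop

theorem diff_dW (k i j : Fin 3) (y : E3) :
    DifferentiableAt ℝ (fun w : E3 => dW (w 0) (w 1) k i j) y := by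
  fin_cases k <;> fin_cases i <;> fin_cases j <;> simp [dW] <;> fun_prop

theorem pd_neg (F : E3 → ℝ) (y : E3) (k : Fin 3) : pd k (fun w => -F w) y = -pd k F y := by
  simp [pd]

theorem pd_W (k i j : Fin 3) (y : E3) :
    pd k (fun w : E3 => W (w 0) (w 1) i j) y = dW (y 0) (y 1) k i j := by
  fin_cases i <;> fin_cases j <;>
    simp [W, pd_const, pd_neg, pd_mul (diff_coord _ y) (diff_coord _ y), pd_coord] <;>
    fin_cases k <;> simp [dW, dl] <;> ring

theorem pd_dW (m k i j : Fin 3) (y : E3) :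
    pd m (fun w : E3 => dW (w 0) (w 1) k i j) y = ddW m k i j := by
  fin_cases k <;> fin_cases i <;> fin_cases j <;>
    simp [dW, pd_const, pd_neg, pd_const_mul (diff_coord _ y), pd_coord] <;>
    fin_cases m <;> simp [ddW, dl]

/-- the metric `P δ + S ω ⊗ ω` with `ω = y₀ dy₁ - y₁ dy₀` -/
noncomputable def axiMet (P S : E3 → ℝ) : Met :=
  fun y => Matrix.of fun i j => P y * dl i j + S y * W (y 0) (y 1) i j

section
variable {P S : E3 → ℝ} {jP jS : E3 → J} (hP : Jet2 P jP) (hS : Jet2 S jS)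
include hP hS

theorem axiMet_diff {y : E3} (hy : y ≠ 0) (i j : Fin 3) :
    DifferentiableAt ℝ (fun w => axiMet P S w i j) y :=
  ((hP.diff hy).fun_mul (differentiableAt_const _)).fun_add ((hS.diff hy).fun_mul (diff_W i j y))

theorem axiMet_pd {y : E3} (hy : y ≠ 0) (k i j : Fin 3) :
    pd k (fun w => axiMet P S w i j) y = (jP y).d (y 0) (y 1) k * dl i j +
      (jS y).d (y 0) (y 1) k * W (y 0) (y 1) i j + (jS y).v * dW (y 0) (y 1) k i j := by
  simp only [axiMet, Matrix.of_apply]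
  rw [pd_add ((hP.diff hy).fun_mul (differentiableAt_const _)) ((hS.diff hy).fun_mul (diff_W i j y)),
    pd_mul (hP.diff hy) (differentiableAt_const _), pd_mul (hS.diff hy) (diff_W i j y), pd_const,
    pd_W, hP.pd_eq hy, hS.pd_eq hy, hS.v y hy]
  ring

theorem axiMet_pd_ev {y : E3} (hy : y ≠ 0) (k i j : Fin 3) :
    pd k (fun w => axiMet P S w i j) =ᶠ[𝓝 y] fun y => (jP y).d (y 0) (y 1) k * dl i j +
      (jS y).d (y 0) (y 1) k * W (y 0) (y 1) i j + S y * dW (y 0) (y 1) k i j := by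
  filter_upwards [isOpen_ne.mem_nhds hy] with w hw
  rw [axiMet_pd hP hS hw, hS.v w hw]

theorem axiMet_diff2 {y : E3} (hy : y ≠ 0) (k i j : Fin 3) :
    DifferentiableAt ℝ (pd k (fun w => axiMet P S w i j)) y :=
  DifferentiableAt.congr_of_eventuallyEq
    ((((hP.diff_d hy k).fun_mul (differentiableAt_const _)).fun_add
      ((hS.diff_d hy k).fun_mul (diff_W i j y))).fun_add ((hS.diff hy).fun_mul (diff_dW k i j y)))
    (axiMet_pd_ev hP hS hy k i j)

theorem axiMet_pd2 {y : E3} (hy : y ≠ 0) (m k i j : Fin 3) :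
    pd m (pd k (fun w => axiMet P S w i j)) y = (jP y).dd (y 0) (y 1) m k * dl i j +
      (jS y).dd (y 0) (y 1) m k * W (y 0) (y 1) i j +
      (jS y).d (y 0) (y 1) k * dW (y 0) (y 1) m i j +
      (jS y).d (y 0) (y 1) m * dW (y 0) (y 1) k i j + (jS y).v * ddW m k i j := by
  rw [pd_congr (axiMet_pd_ev hP hS hy k i j),
    pd_add (((hP.diff_d hy k).fun_mul (differentiableAt_const _)).fun_add
      ((hS.diff_d hy k).fun_mul (diff_W i j y))) ((hS.diff hy).fun_mul (diff_dW k i j y)),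
    pd_add ((hP.diff_d hy k).fun_mul (differentiableAt_const _))
      ((hS.diff_d hy k).fun_mul (diff_W i j y)),
    pd_mul (hP.diff_d hy k) (differentiableAt_const _), pd_mul (hS.diff_d hy k) (diff_W i j y),
    pd_mul (hS.diff hy) (diff_dW k i j y), pd_const, pd_W, pd_dW, hP.pd_d hy, hS.pd_d hy,
    hS.pd_eq hy, hS.v y hy]
  ring

end

theorem axiMet_det (P S : E3 → ℝ) (y : E3) :
    (axiMet P S y).det = P y * P y * (P y + S y * (y 0 * y 0 + y 1 * y 1)) := by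
  simp [Matrix.det_fin_three, axiMet, dl, W]; ring

theorem axiMet_inv (P S : E3 → ℝ) (y : E3) {A B : ℝ} (hA : A * P y = 1)
    (hB : B * (P y + S y * (y 0 * y 0 + y 1 * y 1)) = 1) :
    (axiMet P S y)⁻¹ = Matrix.of fun i j => A * (dl i j - S y * B * W (y 0) (y 1) i j) := by
  apply Matrix.inv_eq_left_inv
  ext i j
  fin_cases i <;> fin_cases j <;> simp [Matrix.mul_apply, Fin.sum_univ_three, axiMet, dl, W]
  · linear_combination hA - A * S y * y 1 * y 1 * hB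
  · linear_combination A * S y * y 0 * y 1 * hB
  · linear_combination A * S y * y 0 * y 1 * hB
  · linear_combination hA - A * S y * y 0 * y 0 * hB
  · exact hA

theorem axiMet_scal {P S : E3 → ℝ} {jP jS : E3 → J} (hP : Jet2 P jP) (hS : Jet2 S jS) {y : E3}
    (hy : y ≠ 0) {A B : ℝ} (hA : A * P y = 1)
    (hB : B * (P y + S y * (y 0 * y 0 + y 1 * y 1)) = 1) :
    scal (axiMet P S) y = scalR (jP y) (jS y) (y 0 * y 0 + y 1 * y 1) A B := by
  have hdet : (axiMet P S y).det ≠ 0 := by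
    rw [axiMet_det]
    have := right_ne_zero_of_mul_eq_one hA
    have := right_ne_zero_of_mul_eq_one hB
    positivity
  rw [scal_eq_scalA (axiMet_diff hP hS hy) hdet (axiMet_diff2 hP hS hy), axiMet_inv P S y hA hB]
  simp only [axiMet_pd hP hS hy, axiMet_pd2 hP hS hy]
  rw [hS.v y hy]
  exact scalA_axi _ _ _ _ _ _ (by rw [← hP.v y hy]; exact hA)
    (by rw [← hP.v y hy, ← hS.v y hy]; exact hB)

end Pool.Agent.MP_69a10d_gt
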