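import Pool.Agent.MP_69a10d_gt.Mg.Axi
import Pool.Agent.MP_69a10d_gt.Data

-- part MP_69a10d_gt.Metric
section

/-! The metric of the example: scalar curvature, positivity, boundary metric, mean curvature. -/

open Filter Topology

namespace Pool.Agent.MP_69a10d_gt
open Pool.Agent.Lib.BiPoly

theorem scalR_jets (A p x u z f f1 f2 f3 f5 f4 k k1 k2 k3 k5 k4 : ℝ)
    (h2 : x * x * z * z = 1 - x * x * u) (h3 : p * f = 1) (h4 : A * (f * f + k * (u * (x * x))) = 1) :
    scalR (((Jev x (u * (x * x)) z f f1 f2 f3 f5 f4).mul (Jev x (u * (x * x)) z f f1 f2 f3 f5 f4)).add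
        ((Jev x (u * (x * x)) z k k1 k2 k3 k5 k4).mul (Jev x (u * (x * x)) z (u * (x * x)) 0 0 1 0 0)))
      ((Jev x (u * (x * x)) z (-(x ^ 2)) (-(2 * x ^ 2)) (-(4 * x ^ 2)) 0 0 0).mul
        (Jev x (u * (x * x)) z k k1 k2 k3 k5 k4)) u A (p * p) =
      -(x ^ 2 * A ^ 3 * p * Enum (u * (x * x)) f f1 f2 f3 f4 k k1 k2 k3 k4) := by
  have e : ∀ l g m : ℝ, A * A * l - A ^ 3 * g + 2 * A * p * m =
      A ^ 3 * p * (f * ((f * f + k * (u * (x * x))) * l - g) +
        2 * (f * f + k * (u * (x * x))) ^ 2 * m) := by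
    intro l g m
    generalize f * f + k * (u * (x * x)) = P at h4
    linear_combination (-(A * A * l) - 2 * A * p * m * (1 + A * P)) * h4 +
      (A ^ 3 * g - A ^ 3 * P * l) * h3
  rw [Enum, mul_assoc, mul_assoc, ← mul_assoc (A ^ 3), ← e]
  simp only [scalR, J.mul, J.add, Jev]
  linear_combination (
    (4)*A^3*x^10*u^4*k3^2 + (16)*A^3*x^8*u^3*f*f3*k3 + (8)*A^3*x^8*u^3*k*k3 +
    (4)*A^3*x^8*u^3*k1*k3 + (16)*A^3*x^6*u^2*f^2*f3^2 + (8)*A^3*x^6*u^2*f*f1*k3 +
    (16)*A^3*x^6*u^2*f*f3*k + (8)*A^3*x^6*u^2*f*f3*k1 + (4)*A^3*x^6*u^2*k^2 +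
    (4)*A^3*x^6*u^2*k*k1 + (1)*A^3*x^6*u^2*k1^2 + (16)*A^3*x^4*u*f^2*f1*f3 +
    (8)*A^3*x^4*u*f*f1*k + (4)*A^3*x^4*u*f*f1*k1 + (4)*A^3*x^2*f^2*f1^2 + (-4)*A^2*x^8*u^3*k4 +
    (-8)*A^2*x^6*u^2*f*f4 + (-8)*A^2*x^6*u^2*f3^2 + (-16)*A^2*x^6*u^2*k3 + (-4)*A^2*x^6*u^2*k5
    + (-16)*A^2*x^4*u*f*f3 + (-8)*A^2*x^4*u*f*f5 + (-8)*A^2*x^4*u*f1*f3 + (-8)*A^2*x^4*u*k +
    (-6)*A^2*x^4*u*k1 + (-1)*A^2*x^4*u*k2 + (-4)*A^2*x^2*f*f1 + (-2)*A^2*x^2*f*f2 +
    (-2)*A^2*x^2*f1^2 + (8)*A*p^4*x^6*u^2*f^2*f3^2 + (8)*A*p^4*x^4*u*f^2*f1*f3 +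
    (2)*A*p^4*x^2*f^2*f1^2 + (-8)*A*p^2*x^6*u^2*f*f4 + (-8)*A*p^2*x^6*u^2*f3^2 +
    (-16)*A*p^2*x^4*u*f*f3 + (-8)*A*p^2*x^4*u*f*f5 + (-8)*A*p^2*x^4*u*f1*f3 +
    (-4)*A*p^2*x^2*f*f1 + (-2)*A*p^2*x^2*f*f2 + (-2)*A*p^2*x^2*f1^2) * h2 + (
    (-8)*A*p^3*x^6*u^2*f*f3^2 + (8)*A*p^3*x^4*u*f*f3^2 + (2)*A*p^3*x^2*f*f1^2 +
    (-8)*A*p^2*x^6*u^2*f3^2 + (8)*A*p^2*x^4*u*f3^2 + (2)*A*p^2*x^2*f1^2 + (8)*A*p*x^6*u^2*f4 +
    (16)*A*p*x^4*u*f3 + (-8)*A*p*x^4*u*f4 + (4)*A*p*x^2*f1 + (-2)*A*p*x^2*f2 + (-12)*A*p*x^2*f3) * h3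

noncomputable def fF (y : E3) : ℝ := 1 / 1600 * evF Lf y
noncomputable def KF (y : E3) : ℝ := 1 / 2560000 * evF LK y
noncomputable def PF (y : E3) : ℝ := fF y * fF y + KF y * ss y
noncomputable def SF (y : E3) : ℝ := -(xi y ^ 2) * KF y
/-- the metric of the example -/
noncomputable def gM : Met := axiMet PF SF

noncomputable def jP (y : E3) : J :=
  ((JevF (1 / 1600) Lf y).mul (JevF (1 / 1600) Lf y)).add
    ((JevF (1 / 2560000) LK y).mul (Jev (xi y) (ss y) (y 2) (ss y) 0 0 1 0 0))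
noncomputable def jS (y : E3) : J :=
  (Jev (xi y) (ss y) (y 2) (-(xi y ^ 2)) (-(2 * xi y ^ 2)) (-(4 * xi y ^ 2)) 0 0 0).mul
    (JevF (1 / 2560000) LK y)

theorem jet2_PF : Jet2 PF jP :=
  ((jet2_evF _ Lf comm_Lf).mul (jet2_evF _ Lf comm_Lf)).add ((jet2_evF _ LK comm_LK).mul jet2_ss)
theorem jet2_SF : Jet2 SF jS := jet2_negxi2.mul (jet2_evF _ LK comm_LK)

theorem T_eq (y : E3) : PF y + SF y * (y 0 * y 0 + y 1 * y 1) = fF y * fF y := by
  simp only [PF, SF, ss]; ring

theorem PF_eq (y : E3) : PF y = 1 / 2560000 * evF LP y := by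
  simp only [PF, fF, KF, evF, ev_LP]; ring

theorem ne_zero_of_one_le {y : E3} (hy : 1 ≤ ‖y‖) : y ≠ 0 := by
  rintro rfl; simp at hy; linarith

theorem fF_ge {y : E3} (hy : 1 ≤ ‖y‖) : 1 / 10 ≤ fF y := by
  have := Lf_ge (xi_nonneg y) (xi_le_one hy) (ss_nonneg y) (ss_le_one y)
  simp only [fF, evF]; linarith

theorem PF_ge {y : E3} (hy : 1 ≤ ‖y‖) : 1 / 100 ≤ PF y := by
  have := LP_ge (xi_nonneg y) (xi_le_one hy) (ss_nonneg y) (ss_le_one y)
  simp only [PF_eq, evF]; linarith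

theorem Enum_scale (c s f f1 f2 f3 f4 k k1 k2 k3 k4 : ℝ) :
    Enum s (c * f) (c * f1) (c * f2) (c * f3) (c * f4) (c ^ 2 * k) (c ^ 2 * k1) (c ^ 2 * k2)
      (c ^ 2 * k3) (c ^ 2 * k4) = c ^ 5 * Enum s f f1 f2 f3 f4 k k1 k2 k3 k4 := by
  simp only [Enum]; ring

theorem scal_gM {y : E3} (hy : 1 ≤ ‖y‖) :
    scal gM y = xi y ^ 4 * (PF y)⁻¹ ^ 3 * (fF y)⁻¹ * ((1 / 1600) ^ 5 * evF LN y) := by
  have hy0 := ne_zero_of_one_le hy
  have hf : fF y ≠ 0 := by have := fF_ge hy; positivity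
  have hP : PF y ≠ 0 := by have := PF_ge hy; positivity
  have hA : (PF y)⁻¹ * PF y = 1 := inv_mul_cancel₀ hP
  have hp : (fF y)⁻¹ * fF y = 1 := inv_mul_cancel₀ hf
  rw [gM, axiMet_scal jet2_PF jet2_SF hy0 hA (B := (fF y)⁻¹ * (fF y)⁻¹)
    (by rw [T_eq]; field_simp)]
  have h := scalR_jets (PF y)⁻¹ (fF y)⁻¹ (xi y) (y 0 * y 0 + y 1 * y 1) (y 2) (fF y)
    (1 / 1600 * evF (eul Lf) y) (1 / 1600 * evF (eul (eul Lf)) y) (1 / 1600 * evF (dY Lf) y)
    (1 / 1600 * evF (dY (eul Lf)) y) (1 / 1600 * evF (dY (dY Lf)) y) (KF y)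
    (1 / 2560000 * evF (eul LK) y) (1 / 2560000 * evF (eul (eul LK)) y)
    (1 / 2560000 * evF (dY LK) y) (1 / 2560000 * evF (dY (eul LK)) y)
    (1 / 2560000 * evF (dY (dY LK)) y) (by linear_combination xi_rel hy0) hp hA
  refine Eq.trans h ?_
  have e : (1 / 2560000 : ℝ) = (1 / 1600) ^ 2 := by norm_num
  have h5 := ev_LE (xi y) (ss y)
  rw [LE_eq] at h5
  simp only [fF, KF, e, Enum_scale]
  simp only [evF]
  change -(_ * (_ * Enum (ss y) _ _ _ _ _ _ _ _ _ _)) = _
  rw [← h5]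
  ring

theorem scal_gM_nonneg {y : E3} (hy : 1 ≤ ‖y‖) : 0 ≤ scal gM y := by
  rw [scal_gM hy]
  have := LN_nonneg (xi_nonneg y) (xi_le_one hy) (ss_nonneg y) (ss_le_one y)
  have := fF_ge hy
  have := PF_ge hy
  have := xi_nonneg y
  simp only [evF]
  positivity

theorem det_gM (y : E3) : (gM y).det = (PF y * fF y) ^ 2 := by
  rw [gM, axiMet_det, T_eq]; ring

theorem sqrt_det_gM {y : E3} (hy : 1 ≤ ‖y‖) : √(gM y).det = PF y * fF y := by
  have := fF_ge hy
  have := PF_ge hy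
  rw [det_gM, Real.sqrt_sq (by positivity)]

theorem inv_gM {y : E3} (hy : 1 ≤ ‖y‖) : (gM y)⁻¹ = Matrix.of fun i j =>
    (PF y)⁻¹ * (dl i j - SF y * ((fF y)⁻¹ * (fF y)⁻¹) * W (y 0) (y 1) i j) := by
  have hf : fF y ≠ 0 := by have := fF_ge hy; positivity
  have hP : PF y ≠ 0 := by have := PF_ge hy; positivity
  exact axiMet_inv PF SF y (inv_mul_cancel₀ hP) (by rw [T_eq]; field_simp)

theorem quad_gM (y : E3) (v w : Fin 3 → ℝ) : ∑ i, ∑ j, gM y i j * v i * w j =
    PF y * (v 0 * w 0 + v 1 * w 1 + v 2 * w 2) +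
      SF y * ((y 0 * v 1 - y 1 * v 0) * (y 0 * w 1 - y 1 * w 0)) := by
  simp [Fin.sum_univ_three, gM, axiMet, dl, W]; ring

theorem posDef_gM {y : E3} (hy : 1 ≤ ‖y‖) : (gM y).PosDef := by
  have hf := fF_ge hy
  have hP := PF_ge hy
  rw [Matrix.posDef_iff_dotProduct_mulVec]
  refine ⟨?_, fun v hv => ?_⟩
  · ext i j
    fin_cases i <;> fin_cases j <;> simp [gM, axiMet, dl, W]
  · have e : star v ⬝ᵥ (gM y).mulVec v = ∑ i, ∑ j, gM y i j * v i * v j := by
      simp [dotProduct, Matrix.mulVec, Fin.sum_univ_three]; ring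
    rw [e, quad_gM]
    have hv' : 0 < v 0 * v 0 + v 1 * v 1 + v 2 * v 2 := by
      by_contra h
      apply hv
      have h0 := mul_self_nonneg (v 0)
      have h1 := mul_self_nonneg (v 1)
      have h2 := mul_self_nonneg (v 2)
      ext i
      fin_cases i <;> simp <;> apply mul_self_eq_zero.1 <;> linarith
    have hT := T_eq y
    set q := (y 0 * v 1 - y 1 * v 0) * (y 0 * v 1 - y 1 * v 0) with hq
    have hq0 : 0 ≤ q := mul_self_nonneg _
    set n := v 0 * v 0 + v 1 * v 1 + v 2 * v 2 with hn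
    set u := y 0 * y 0 + y 1 * y 1 with hu
    have hqu : q ≤ u * n := by
      have : u * n - q = (y 0 * v 0 + y 1 * v 1) ^ 2 + (y 0 * v 2) ^ 2 + (y 1 * v 2) ^ 2 := by
        rw [hq, hn, hu]; ring
      nlinarith [sq_nonneg (y 0 * v 0 + y 1 * v 1), sq_nonneg (y 0 * v 2), sq_nonneg (y 1 * v 2)]
    rcases le_total 0 (SF y) with hS | hS
    · have : 0 ≤ SF y * q := mul_nonneg hS hq0
      have : 0 < PF y * n := by positivity
      linarith
    · have h1 : SF y * (u * n) ≤ SF y * q := mul_le_mul_of_nonpos_left hqu hS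
      have h2 : 0 < fF y * fF y * n := by positivity
      rw [← hT] at h2
      nlinarith

end Pool.Agent.MP_69a10d_gt

end

-- part MP_69a10d_gt.Boundary
section

/-! The ellipsoid, the unit sphere, the boundary isometry and the mean curvature comparison. -/

open Filter Topology
open scoped ContDiff

namespace Pool.Agent.MP_69a10d_gt
open Pool.Agent.Lib.BiPoly

/-- defining function of an ellipsoid with inverse squared semi-axes `α, α, γ` -/
noncomputable def ell (α γ : ℝ) (x : E3) : ℝ := α * (x 0 * x 0) + α * (x 1 * x 1) + γ * (x 2 * x 2) - 1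

theorem hasFDerivAt_ell (α γ : ℝ) (x : E3) : HasFDerivAt (ell α γ)
    ((2 * α * x 0) • pr 0 + (2 * α * x 1) • pr 1 + (2 * γ * x 2) • pr 2) x := by
  have h := fun j => (hasFDerivAt_coord j x).fun_mul (hasFDerivAt_coord j x)
  refine HasFDerivAt.congr_fderiv (((((h 0).const_mul α).fun_add ((h 1).const_mul α)).fun_add
    ((h 2).const_mul γ)).sub_const 1) ?_
  ext v; simp; ring

theorem pd_ell (α γ : ℝ) (j : Fin 3) (x : E3) : pd j (ell α γ) x = 2 * ![α, α, γ] j * x j := by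
  rw [pd_of_hasFDerivAt (hasFDerivAt_ell α γ x)]
  fin_cases j <;> simp

theorem pd_pd_ell (α γ : ℝ) (i j : Fin 3) (x : E3) :
    pd i (pd j (ell α γ)) x = 2 * ![α, α, γ] j * dl i j := by
  have : pd j (ell α γ) = fun x => 2 * ![α, α, γ] j * x j := funext (pd_ell α γ j)
  rw [this, pd_const_mul (diff_coord j x), pd_coord]

theorem ell_one (y : E3) : ell 1 1 y = ‖y‖ ^ 2 - 1 := by rw [norm_sq_eq, ell]; ring

theorem ell_one_nonneg {y : E3} : 0 ≤ ell 1 1 y ↔ 1 ≤ ‖y‖ := by
  rw [ell_one, sub_nonneg, one_le_sq_iff₀ (norm_nonneg y)]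

theorem ell_one_eq_zero {y : E3} : ell 1 1 y = 0 ↔ ‖y‖ = 1 := by
  rw [ell_one, sub_eq_zero, pow_eq_one_iff_of_nonneg (norm_nonneg y) (by norm_num)]

theorem meanCurv_eq (g : Met) (ρ : E3 → ℝ) (x : E3) (h : 0 ≤ gradSq g ρ x) :
    meanCurv g ρ x = (∑ i, ∑ j, ((g x)⁻¹ i j -
      (∑ l, (g x)⁻¹ i l * pd l ρ x) * (∑ l, (g x)⁻¹ j l * pd l ρ x) / gradSq g ρ x) *
      (pd i (pd j ρ) x - ∑ k, christoffel g k i j x * pd k ρ x)) / √(gradSq g ρ x) := by
  simp only [meanCurv, unitNormal, div_mul_div_comm, Real.mul_self_sqrt h]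

theorem mean_alg (P S : J) (a b z A B : ℝ) (hA : A * P.v = 1)
    (hB : B * (P.v + S.v * (a * a + b * b)) = 1) (hz : z * z = 1 - a * a - b * b) :
    ∑ i, ∑ j, (A * (dl i j - S.v * B * W a b i j) - A * ![a, b, z] i * ![a, b, z] j) *
      (2 * dl i j - ∑ k, gamA (Matrix.of fun i j => A * (dl i j - S.v * B * W a b i j))
        (fun k i j => P.d a b k * dl i j + S.d a b k * W a b i j + S.v * dW a b k i j) k i j *
          (2 * ![a, b, z] k)) =
    2 * A * (2 + A * ((a * a + b * b) * P.u + z * P.z) / 2 +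
      B * ((a * a + b * b) * (P.u + 2 * S.v + (a * a + b * b) * S.u) +
        z * (P.z + (a * a + b * b) * S.z)) / 2) := by
  have h : A * B * S.v * a * a = A - B - A * B * S.v * b * b := by
    linear_combination A * hB - B * hA
  simp only [gamA, Fin.sum_univ_three, Matrix.of_apply]
  simp only [J.d, W, dW, dl, Matrix.cons_val_zero, Matrix.cons_val_one,
    Matrix.cons_val_two, Matrix.head_cons, Matrix.tail_cons, mul_zero, add_zero, zero_add,
    mul_one, sub_zero]
  linear_combination (A^2*a^2*P.u + A^2*b^2*P.u + A^2*z*P.z - 2*A) * hz +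
    (-A*a^4*S.u - 2*A*a^2*b^2*S.u - A*a^2*z*S.z - 4*A*a^2*S.v - A*a^2*P.u - A*b^4*S.u
      - A*b^2*z*S.z - 4*A*b^2*S.v - A*b^2*P.u - A*z*P.z) * h

section sphere
variable {y : E3} (hy : ‖y‖ = 1)
include hy

theorem xi_sphere : xi y = 1 := by simp [xi, hy]
theorem ss_sphere : ss y = y 0 * y 0 + y 1 * y 1 := by simp [ss, xi_sphere hy]
theorem z_sphere : y 2 * y 2 = 1 - y 0 * y 0 - y 1 * y 1 := by
  have := norm_sq_eq y
  rw [hy] at this; linarith
theorem fF_sphere : fF y = 1 / 5 := by simp only [fF, evF, xi_sphere hy, Lf_one]; norm_num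
theorem KF_sphere : KF y = 2601 / 1024 := by simp only [KF, evF, xi_sphere hy, LK_one]; norm_num
theorem PF_sphere : PF y = 1 / 25 + 2601 / 1024 * (y 0 * y 0 + y 1 * y 1) := by
  rw [PF, fF_sphere hy, KF_sphere hy, ss_sphere hy]; norm_num
theorem SF_sphere : SF y = -(2601 / 1024) := by
  rw [SF, KF_sphere hy, xi_sphere hy]; norm_num

theorem meanCurv_gM : meanCurv gM (ell 1 1) y =
    (2 - (2 / 5 * (1 / 1600 * (-2248 - 285 * ss y + 657 * ss y ^ 2)) +
      1 / 2560000 * (13491700 + 10649600 * ss y - 26675200 * ss y ^ 2) * ss y) / (2 * PF y)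
      - 5 * (1 / 1600 * (-2248 - 285 * ss y + 657 * ss y ^ 2))) / √(PF y) := by
  have hy1 : 1 ≤ ‖y‖ := hy.ge
  have hy0 := ne_zero_of_one_le hy1
  have hP := PF_ge hy1
  have hP0 : PF y ≠ 0 := by positivity
  have hz := z_sphere hy
  have hn : ∀ i, ∑ l, (gM y)⁻¹ i l * pd l (ell 1 1) y = 2 * (PF y)⁻¹ * ![y 0, y 1, y 2] i := by
    intro i
    rw [inv_gM hy1]
    fin_cases i <;> simp [Fin.sum_univ_three, pd_ell, dl, W] <;> ring
  have hG : gradSq gM (ell 1 1) y = 4 * (PF y)⁻¹ := by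
    rw [gradSq, inv_gM hy1]
    simp [Fin.sum_univ_three, pd_ell, dl, W]
    linear_combination 4 * (PF y)⁻¹ * hz
  rw [meanCurv_eq _ _ _ (by rw [hG]; positivity)]
  simp only [hn, hG]
  have e1 : ∀ i j : Fin 3, 2 * (PF y)⁻¹ * ![y 0, y 1, y 2] i * (2 * (PF y)⁻¹ * ![y 0, y 1, y 2] j) /
      (4 * (PF y)⁻¹) = (PF y)⁻¹ * ![y 0, y 1, y 2] i * ![y 0, y 1, y 2] j := by
    intro i j; field_simp; ring
  have e2 : ∀ i j : Fin 3, pd i (pd j (ell 1 1)) y = 2 * dl i j := by
    intro i j; rw [pd_pd_ell]; fin_cases j <;> simp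
  have e3 : ∀ k : Fin 3, pd k (ell 1 1) y = 2 * ![y 0, y 1, y 2] k := by
    intro k; rw [pd_ell]; fin_cases k <;> simp
  simp only [e1, e2, e3, christoffel_eq]
  have e4 : (fun m a b => pd m (fun y => gM y a b) y) = fun k i j =>
      (jP y).d (y 0) (y 1) k * dl i j + (jS y).d (y 0) (y 1) k * W (y 0) (y 1) i j +
        (jS y).v * dW (y 0) (y 1) k i j := by
    funext k i j; exact axiMet_pd jet2_PF jet2_SF hy0 k i j
  rw [e4, inv_gM hy1]
  simp only [Matrix.of_apply]
  rw [jet2_SF.v y hy0, mean_alg (jP y) (jS y) (y 0) (y 1) (y 2) (PF y)⁻¹ ((fF y)⁻¹ * (fF y)⁻¹)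
    (by rw [← jet2_PF.v y hy0]; field_simp)
    (by rw [← jet2_PF.v y hy0, ← jet2_SF.v y hy0, T_eq, fF_sphere hy]; norm_num) hz]
  have e5 : √(4 * (PF y)⁻¹) = 2 / √(PF y) := by
    rw [Real.sqrt_mul (by norm_num), Real.sqrt_inv, show (4 : ℝ) = 2 ^ 2 by norm_num,
      Real.sqrt_sq (by norm_num)]; rfl
  have hw : √(PF y) * √(PF y) = PF y := Real.mul_self_sqrt (by positivity)
  have hw0 : 0 < √(PF y) := Real.sqrt_pos.2 (by positivity)
  rw [e5]
  have f0 : evF Lf y = 320 := by simp only [evF, xi_sphere hy, Lf_one]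
  have k0 : evF LK y = 6502500 := by simp only [evF, xi_sphere hy, LK_one]
  have f1 : evF (eul Lf) y = -2248 - 285 * ss y + 657 * ss y ^ 2 := by
    simp only [evF, xi_sphere hy, eul_Lf_one]
  have k1 : evF (eul LK) y = 13491700 + 10649600 * ss y - 26675200 * ss y ^ 2 := by
    simp only [evF, xi_sphere hy, eul_LK_one]
  have hs := ss_sphere hy
  have hz' : y 2 * y 2 = 1 - ss y := by rw [hs]; linarith
  rw [← hs, fF_sphere hy]
  have g1 : ss y * (jP y).u + y 2 * (jP y).z =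
      -(2 / 5 * (1 / 1600 * (-2248 - 285 * ss y + 657 * ss y ^ 2)) +
      1 / 2560000 * (13491700 + 10649600 * ss y - 26675200 * ss y ^ 2) * ss y) := by
    simp only [jP, J.add, J.mul, JevF, Jev, xi_sphere hy, f0, k0]
    rw [← f1, ← k1]
    linear_combination (-(2 / 5) * (1 / 1600 * evF (eul Lf) y + 2 * ss y * (1 / 1600 * evF (dY Lf) y))
      - ss y * (1 / 2560000 * evF (eul LK) y + 2 * ss y * (1 / 2560000 * evF (dY LK) y))
      - 2 * ss y * (2601 / 1024)) * hz'
  have g2 : ss y * ((jP y).u + 2 * (jS y).v + ss y * (jS y).u) + y 2 * ((jP y).z + ss y * (jS y).z) =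
      -(2 / 5 * (1 / 1600 * (-2248 - 285 * ss y + 657 * ss y ^ 2))) := by
    simp only [jP, jS, J.add, J.mul, JevF, Jev, xi_sphere hy, f0, k0]
    rw [← f1]
    linear_combination (-(2 / 5) * (1 / 1600 * evF (eul Lf) y + 2 * ss y * (1 / 1600 * evF (dY Lf) y))) * hz'
  rw [g1, g2]
  generalize √(PF y) = w at *
  rw [← hw]
  field_simp
  ring

end sphere

/-- the defining function of the ellipsoid with semi-axes `1/5, 1/5, 257/160` -/
noncomputable def rho : E3 → ℝ := ell 25 (25600 / 66049)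

/-- the linear map sending the unit sphere onto the ellipsoid -/
noncomputable def iotaL : E3 →L[ℝ] E3 :=
  (1 / 5 : ℝ) • (pr 0).smulRight (EuclideanSpace.single 0 1) +
  (1 / 5 : ℝ) • (pr 1).smulRight (EuclideanSpace.single 1 1) +
  (257 / 160 : ℝ) • (pr 2).smulRight (EuclideanSpace.single 2 1)

@[simp] theorem iotaL_0 (y : E3) : iotaL y 0 = 1 / 5 * y 0 := by simp [iotaL]
@[simp] theorem iotaL_1 (y : E3) : iotaL y 1 = 1 / 5 * y 1 := by simp [iotaL]
@[simp] theorem iotaL_2 (y : E3) : iotaL y 2 = 257 / 160 * y 2 := by simp [iotaL]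

theorem rho_iotaL (y : E3) : rho (iotaL y) = ell 1 1 y := by
  simp only [rho, ell, iotaL_0, iotaL_1, iotaL_2]; ring

/-- the inverse of `iotaL` -/
noncomputable def iotaInv (x : E3) : E3 := WithLp.toLp 2 ![5 * x 0, 5 * x 1, 160 / 257 * x 2]

theorem iotaL_iotaInv (x : E3) : iotaL (iotaInv x) = x := by
  ext i; fin_cases i <;> simp [iotaInv] <;> ring

theorem iotaL_injective : Function.Injective iotaL := by
  intro x y h
  have h0 := congrArg (fun v : E3 => v 0) h
  have h1 := congrArg (fun v : E3 => v 1) h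
  have h2 := congrArg (fun v : E3 => v 2) h
  simp only [iotaL_0, iotaL_1, iotaL_2] at h0 h1 h2
  ext i; fin_cases i <;> simp <;> linarith

theorem christoffel_one (k i j : Fin 3) (x : E3) : christoffel (fun _ => 1) k i j x = 0 := by
  simp [christoffel, pd_const]

theorem meanCurv_rho {y : E3} (hy : ‖y‖ = 1) : meanCurv (fun _ => 1) rho (iotaL y) =
    257 / 32 * (2 - 2601 / 1024 * ss y / PF y) / √(PF y) := by
  have hP := PF_ge hy.ge
  have hz := z_sphere hy
  have hG : gradSq (fun _ => 1) rho (iotaL y) = (1600 / 257) ^ 2 * PF y := by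
    rw [PF_sphere hy]
    simp [gradSq, Fin.sum_univ_three, rho, pd_ell, Matrix.one_apply]
    linear_combination (102400 / 66049) * hz
  rw [meanCurv_eq _ _ _ (by rw [hG]; positivity), hG, Real.sqrt_mul (by positivity),
    Real.sqrt_sq (by norm_num)]
  have hw0 : 0 < √(PF y) := Real.sqrt_pos.2 (by positivity)
  simp only [christoffel_one, zero_mul, Finset.sum_const_zero, sub_zero, rho, pd_pd_ell]
  simp [Fin.sum_univ_three, pd_ell, Matrix.one_apply, dl]
  have e := PF_sphere hy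
  rw [ss_sphere hy]
  have hP0 : PF y ≠ 0 := by positivity
  generalize √(PF y) = w at *
  field_simp
  rw [e]
  have hz' : y 2 ^ 2 = 1 - y 0 ^ 2 - y 1 ^ 2 := by linarith
  rw [hz']
  ring

theorem meanCurv_le {y : E3} (hy : ‖y‖ = 1) :
    meanCurv gM (ell 1 1) y ≤ meanCurv (fun _ => 1) rho (iotaL y) := by
  rw [meanCurv_gM hy, meanCurv_rho hy]
  have hP := PF_ge hy.ge
  refine div_le_div_of_nonneg_right ?_ (Real.sqrt_nonneg _)
  have e := PF_sphere hy
  rw [← ss_sphere hy] at e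
  have h0 := ss_nonneg y
  have h1 := ss_le_one y
  generalize ss y = s at *
  rw [← sub_nonneg]
  have : 257 / 32 * (2 - 2601 / 1024 * s / PF y) -
      (2 - (2 / 5 * (1 / 1600 * (-2248 - 285 * s + 657 * s ^ 2)) +
      1 / 2560000 * (13491700 + 10649600 * s - 26675200 * s ^ 2) * s) / (2 * PF y)
      - 5 * (1 / 1600 * (-2248 - 285 * s + 657 * s ^ 2))) =
      (819200 + 65018000 * s - 29445800 * s ^ 2 + 8221000 * s ^ 3) / (1638400000 * PF y) := by
    have hP0 : PF y ≠ 0 := by positivity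
    field_simp
    rw [e]
    ring
  rw [this]
  refine div_nonneg ?_ (by positivity)
  nlinarith [mul_nonneg h0 (sub_nonneg.2 h1), pow_nonneg h0 3]

theorem iso_metric {y : E3} (hy : ‖y‖ = 1) (v w : E3) (hv : fderiv ℝ (ell 1 1) y v = 0)
    (hw : fderiv ℝ (ell 1 1) y w = 0) :
    ∑ i, ∑ j, gM y i j * v i * w j = inner ℝ (fderiv ℝ iotaL y v) (fderiv ℝ iotaL y w) := by
  rw [(hasFDerivAt_ell 1 1 y).fderiv] at hv hw
  simp at hv hw
  rw [quad_gM, PF_sphere hy, SF_sphere hy, ContinuousLinearMap.fderiv]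
  simp only [PiLp.inner_apply, Fin.sum_univ_three, iotaL_0, iotaL_1, iotaL_2, Real.inner_apply]
  have hz := z_sphere hy
  linear_combination (2601 / 1024) * (v 2 * w 2) * hz +
    (2601 / 2048) * (y 0 * w 0 + y 1 * w 1) * hv - (2601 / 2048) * (y 2 * v 2) * hw

theorem contDiff_ell (α γ : ℝ) : ContDiff ℝ ∞ (ell α γ) := by
  unfold ell; fun_prop

theorem setOf_ell_one_eq : {x : E3 | ell 1 1 x = 0} = Metric.sphere 0 1 := by
  ext x; simp [ell_one_eq_zero]

theorem isConnected_sphere3 : IsConnected (Metric.sphere (0 : E3) 1) :=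
  isConnected_sphere (by rw [← Module.finrank_eq_rank]; simp) 0 zero_le_one

theorem region_one : IsSmoothBoundedRegion (ell 1 1) where
  smooth := contDiff_ell 1 1
  regular := by
    intro x hx h
    have h2 := fderiv_apply_eq_sum (ell 1 1) x x
    rw [h] at h2
    simp [Fin.sum_univ_three, pd_ell] at h2
    simp only [ell] at hx
    linarith
  nonempty := ⟨0, by simp [ell]⟩
  bounded := by
    refine (Metric.isBounded_closedBall (x := (0 : E3)) (r := 1)).subset (fun x hx => ?_)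
    simp only [Set.mem_ofPred_eq, ell_one, sub_nonpos] at hx
    simpa using (sq_le_one_iff₀ (norm_nonneg x)).1 hx
  connected_boundary := by rw [setOf_ell_one_eq]; exact isConnected_sphere3
  connected_exterior := by
    have h := (isConnected_sphere3.prod (isConnected_Ici (a := (1 : ℝ)))).image
      (fun p : E3 × ℝ => p.2 • p.1) (by fun_prop)
    convert h using 1
    ext x
    simp only [Set.mem_ofPred_eq, ell_one_nonneg, Set.mem_image, Set.mem_prod, Prod.exists,
      mem_sphere_iff_norm, sub_zero, Set.mem_Ici]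
    constructor
    · intro hx
      have : ‖x‖ ≠ 0 := by positivity
      exact ⟨‖x‖⁻¹ • x, ‖x‖, ⟨by rw [norm_smul]; simp [this], hx⟩, by simp [smul_smul, this]⟩
    · rintro ⟨a, r, ⟨ha, hr⟩, rfl⟩
      rw [norm_smul, ha, Real.norm_eq_abs, abs_of_nonneg (by linarith)]; linarith

theorem image_iotaL (p : ℝ → Prop) : iotaL '' {y | p (ell 1 1 y)} = {x | p (rho x)} := by
  ext x
  constructor
  · rintro ⟨y, hy, rfl⟩; simpa [rho_iotaL] using hy
  · intro hx
    exact ⟨iotaInv x, by simpa [← rho_iotaL, iotaL_iotaInv] using hx, iotaL_iotaInv x⟩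

theorem region_rho : IsSmoothBoundedRegion rho where
  smooth := contDiff_ell _ _
  regular := by
    intro x hx h
    have h2 := fderiv_apply_eq_sum rho x x
    rw [h] at h2
    simp [Fin.sum_univ_three, pd_ell, rho] at h2
    simp only [rho, ell] at hx
    linarith
  nonempty := ⟨0, by simp [rho, ell]⟩
  bounded := by
    rw [← image_iotaL (fun t => t ≤ 0)]
    exact iotaL.lipschitz.isBounded_image region_one.bounded
  connected_boundary := by
    rw [← image_iotaL (fun t => t = 0)]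
    exact region_one.connected_boundary.image _ iotaL.continuous.continuousOn
  connected_exterior := by
    rw [← image_iotaL (fun t => 0 ≤ t)]
    exact region_one.connected_exterior.image _ iotaL.continuous.continuousOn

theorem convex_rho : Convex ℝ {x | rho x < 0} := by
  rw [← image_iotaL (fun t => t < 0)]
  have : {y : E3 | ell 1 1 y < 0} = Metric.ball 0 1 := by
    ext y; simp [← not_le, ell_one_nonneg]
  rw [this]
  exact (convex_ball 0 1).linear_image iotaL.toLinearMap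

theorem bijOn_iotaL : Set.BijOn iotaL {y | ell 1 1 y = 0} {x | rho x = 0} := by
  rw [← image_iotaL (fun t => t = 0)]
  exact iotaL_injective.injOn.bijOn_image

end Pool.Agent.MP_69a10d_gt

end

-- part MP_69a10d_gt.Decay
section

/-! Smoothness, decay and integrability of the scalar curvature for the metric of the example. -/

open Filter Topology MeasureTheory
open scoped ContDiff

namespace Pool.Agent.MP_69a10d_gt
open Pool.Agent.Lib.BiPoly

/-- functions that are `xi ^ k` times a polynomial in `xi` and the direction cosines -/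
inductive Dec : ℕ → (E3 → ℝ) → Prop
  | const (c : ℝ) : Dec 0 (fun _ => c)
  | zero (k : ℕ) : Dec k (fun _ => 0)
  | xi : Dec 1 xi
  | dir (j : Fin 3) : Dec 0 (fun y => y j * xi y)
  | add {k : ℕ} {F G : E3 → ℝ} : Dec k F → Dec k G → Dec k (fun y => F y + G y)
  | mul {k l : ℕ} {F G : E3 → ℝ} : Dec k F → Dec l G → Dec (k + l) (fun y => F y * G y)
  | mono {k : ℕ} {F : E3 → ℝ} : Dec (k + 1) F → Dec k F
  | congr {k : ℕ} {F G : E3 → ℝ} : Dec k F → (∀ y, y ≠ 0 → G y = F y) → Dec k G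

theorem contDiffAt_xi {y : E3} (hy : y ≠ 0) : ContDiffAt ℝ ∞ xi y :=
  (contDiffAt_norm ℝ hy).inv (norm_ne_zero_iff.2 hy)

theorem Dec.contDiffAt {k : ℕ} {F : E3 → ℝ} (h : Dec k F) {y : E3} (hy : y ≠ 0) :
    ContDiffAt ℝ ∞ F y := by
  induction h with
  | const c => exact contDiffAt_const
  | zero k => exact contDiffAt_const
  | xi => exact contDiffAt_xi hy
  | dir j => exact ((pr j).contDiff.contDiffAt).mul (contDiffAt_xi hy)
  | add _ _ ih ih' => exact ih.add ih'
  | mul _ _ ih ih' => exact ih.mul ih'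
  | mono _ ih => exact ih
  | congr _ h ih =>
    refine ih.congr_of_eventuallyEq ?_
    filter_upwards [isOpen_ne.mem_nhds hy] with w hw using h w hw

theorem Dec.diff {k : ℕ} {F : E3 → ℝ} (h : Dec k F) {y : E3} (hy : y ≠ 0) :
    DifferentiableAt ℝ F y := (h.contDiffAt hy).differentiableAt (by simp)

theorem abs_coord_le (y : E3) (j : Fin 3) : |y j| ≤ ‖y‖ := by
  simpa using PiLp.norm_apply_le y j

theorem Dec.bound {k : ℕ} {F : E3 → ℝ} (h : Dec k F) :
    ∃ C : ℝ, 0 ≤ C ∧ ∀ y : E3, 1 ≤ ‖y‖ → |F y| ≤ C * Pool.Agent.MP_69a10d_gt.xi y ^ k := by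
  induction h with
  | const c => exact ⟨|c|, abs_nonneg c, fun y _ => by simp⟩
  | zero k => exact ⟨0, le_rfl, fun y _ => by simp⟩
  | xi => exact ⟨1, zero_le_one, fun y _ => by simp [abs_of_nonneg (xi_nonneg y)]⟩
  | dir j =>
    refine ⟨1, zero_le_one, fun y hy => ?_⟩
    have h0 : 0 < ‖y‖ := by linarith
    rw [abs_mul, abs_of_nonneg (xi_nonneg y), pow_zero, mul_one, Pool.Agent.MP_69a10d_gt.xi,
      ← div_eq_mul_inv, div_le_one h0]
    exact abs_coord_le y j
  | add _ _ ih ih' =>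
    obtain ⟨C, hC, h⟩ := ih
    obtain ⟨C', hC', h'⟩ := ih'
    refine ⟨C + C', by positivity, fun y hy => (abs_add_le _ _).trans ?_⟩
    have := h y hy; have := h' y hy; linarith
  | mul _ _ ih ih' =>
    obtain ⟨C, hC, h⟩ := ih
    obtain ⟨C', hC', h'⟩ := ih'
    refine ⟨C * C', by positivity, fun y hy => ?_⟩
    have := xi_nonneg y
    rw [abs_mul]
    refine (mul_le_mul (h y hy) (h' y hy) (abs_nonneg _) (by positivity)).trans (le_of_eq ?_)
    ring
  | mono _ ih =>
    obtain ⟨C, hC, h⟩ := ih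
    refine ⟨C, hC, fun y hy => (h y hy).trans (mul_le_mul_of_nonneg_left ?_ hC)⟩
    exact pow_le_pow_of_le_one (xi_nonneg y) (xi_le_one hy) (by omega)
  | congr _ h ih =>
    obtain ⟨C, hC, h'⟩ := ih
    exact ⟨C, hC, fun y hy => by rw [h y (ne_zero_of_one_le hy)]; exact h' y hy⟩

theorem pd_xi {y : E3} (hy : y ≠ 0) (i : Fin 3) : pd i xi y = -(y i * xi y ^ 3) := by
  rw [ax_xi.pd_eq hy]; fin_cases i <;> simp

theorem Dec.cast {k l : ℕ} {F : E3 → ℝ} (h : Dec k F) (e : k = l) : Dec l F := e ▸ h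

theorem Dec.pd {k : ℕ} {F : E3 → ℝ} (h : Dec k F) (i : Fin 3) : Dec (k + 1) (pd i F) := by
  induction h with
  | const c => exact (Dec.zero _).congr (fun y _ => pd_const c i y)
  | zero k => exact (Dec.zero _).congr (fun y _ => pd_const 0 i y)
  | xi =>
    refine ((((Dec.const (-1)).mul (Dec.dir i)).mul Dec.xi).mul Dec.xi).congr (fun y hy => ?_)
    rw [pd_xi hy]; ring
  | dir j =>
    refine (((Dec.const (dl i j)).mul Dec.xi).add
      ((((Dec.const (-1)).mul (Dec.dir i)).mul (Dec.dir j)).mul Dec.xi)).congr (fun y hy => ?_)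
    rw [pd_mul (diff_coord j y) (ax_xi.diff hy), pd_xi hy, pd_coord]; ring
  | add h h' ih ih' =>
    exact (ih.add ih').congr (fun y hy => pd_add (h.diff hy) (h'.diff hy) i)
  | mul h h' ih ih' =>
    exact (((ih.mul h').cast (by ring)).add (h.mul ih')).congr
      (fun y hy => pd_mul (h.diff hy) (h'.diff hy) i)
  | mono _ ih => exact ih.mono
  | congr _ h ih =>
    refine ih.congr (fun y hy => pd_congr ?_ i)
    filter_upwards [isOpen_ne.mem_nhds hy] with w hw using h w hw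

theorem dec_ss : Dec 0 ss :=
  (((Dec.dir 0).mul (Dec.dir 0)).add ((Dec.dir 1).mul (Dec.dir 1))).congr
    (fun y _ => by simp only [ss]; ring)

theorem dec_ev1 : ∀ r : List ℤ, Dec 0 (fun y => ev1 r (ss y))
  | [] => Dec.zero 0
  | c :: r => (Dec.const (c : ℝ)).add (dec_ss.mul (dec_ev1 r))

theorem dec_evF : ∀ L : List (List ℤ), Dec 0 (evF L)
  | [] => Dec.zero 0
  | r :: L => (dec_ev1 r).add (Dec.xi.mul (dec_evF L)).mono

theorem dec_fF : Dec 0 fF := (Dec.const _).mul (dec_evF Lf)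

theorem dec_fF_sub : Dec 1 (fun y => fF y - 1) := by
  refine ((Dec.const (1 / 1600)).mul (Dec.xi.mul (dec_evF Lf.tail))).congr (fun y _ => ?_)
  have : evF Lf y = 1600 + xi y * evF Lf.tail y := by
    simp only [evF, Lf, List.tail_cons, ev_cons (r := [1600, 0, 0])]; simp
  rw [fF, this]; ring

theorem dec_KF : Dec 1 KF := by
  refine ((Dec.const (1 / 2560000)).mul (Dec.xi.mul (dec_evF LK.tail))).congr (fun y _ => ?_)
  have : evF LK y = xi y * evF LK.tail y := by
    simp only [evF, LK, List.tail_cons]; rw [ev_cons]; simp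
  rw [KF, this]

theorem dec_W (i j : Fin 3) : Dec 0 (fun y => xi y ^ 2 * W (y 0) (y 1) i j) := by
  have h := fun (c : ℝ) (a b : Fin 3) => ((Dec.const c).mul (Dec.dir a)).mul (Dec.dir b)
  fin_cases i <;> fin_cases j
  · exact (h 1 1 1).congr (fun y _ => by simp [W]; ring)
  · exact (h (-1) 0 1).congr (fun y _ => by simp [W]; ring)
  · exact (Dec.zero 0).congr (fun y _ => by simp [W])
  · exact (h (-1) 0 1).congr (fun y _ => by simp [W]; ring)
  · exact (h 1 0 0).congr (fun y _ => by simp [W]; ring)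
  · exact (Dec.zero 0).congr (fun y _ => by simp [W])
  · exact (Dec.zero 0).congr (fun y _ => by simp [W])
  · exact (Dec.zero 0).congr (fun y _ => by simp [W])
  · exact (Dec.zero 0).congr (fun y _ => by simp [W])

theorem dl_eq (i j : Fin 3) : dl i j = (1 : Matrix (Fin 3) (Fin 3) ℝ) i j := by
  fin_cases i <;> fin_cases j <;> simp [dl]

theorem dec_gM_sub (i j : Fin 3) :
    Dec 1 (fun y => gM y i j - (1 : Matrix (Fin 3) (Fin 3) ℝ) i j) := by
  refine ((((dec_fF_sub.mul (dec_fF.add (Dec.const 1))).add (dec_KF.mul dec_ss)).mul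
    (Dec.const (dl i j))).add ((dec_KF.mul (Dec.const (-1))).mul (dec_W i j))).congr (fun y _ => ?_)
  simp only [gM, axiMet, Matrix.of_apply, PF, SF, ← dl_eq]; ring

theorem dec_gM (i j : Fin 3) : Dec 0 (fun y => gM y i j) :=
  ((dec_gM_sub i j).mono.add (Dec.const ((1 : Matrix (Fin 3) (Fin 3) ℝ) i j))).congr
    (fun y _ => by ring)

theorem dec_pd_gM (k i j : Fin 3) : Dec 2 (pd k (fun y => gM y i j)) := by
  refine ((dec_gM_sub i j).pd k).congr (fun y hy => ?_)
  rw [pd_sub ((dec_gM i j).diff hy) (differentiableAt_const _), pd_const, sub_zero]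

theorem xi_pow_eq {y : E3} (k : ℕ) : xi y ^ k = ‖y‖ ^ (-(k : ℝ)) := by
  rw [Real.rpow_neg (norm_nonneg y), Real.rpow_natCast, xi, inv_pow]

theorem decay_gM : ∃ C τ r : ℝ, 0 < C ∧ 1 / 2 < τ ∧ τ ≤ 1 ∧ 0 < r ∧ ∀ x : E3, r < ‖x‖ →
    0 ≤ ell 1 1 x ∧ ∀ i j,
    |gM x i j - (1 : Matrix (Fin 3) (Fin 3) ℝ) i j| ≤ C * ‖x‖ ^ (-τ) ∧
    (∀ k, |pd k (fun y => gM y i j) x| ≤ C * ‖x‖ ^ (-τ - 1)) ∧
    (∀ k l, |pd k (pd l (fun y => gM y i j)) x| ≤ C * ‖x‖ ^ (-τ - 2)) := by
  choose C0 h0 h0' using fun p : Fin 3 × Fin 3 => (dec_gM_sub p.1 p.2).bound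
  choose C1 h1 h1' using fun p : Fin 3 × Fin 3 × Fin 3 => (dec_pd_gM p.1 p.2.1 p.2.2).bound
  choose C2 h2 h2' using fun p : Fin 3 × Fin 3 × Fin 3 × Fin 3 =>
    ((dec_pd_gM p.2.1 p.2.2.1 p.2.2.2).pd p.1).bound
  have s0 : 0 ≤ ∑ p, C0 p := Finset.sum_nonneg fun p _ => h0 p
  have s1 : 0 ≤ ∑ p, C1 p := Finset.sum_nonneg fun p _ => h1 p
  have s2 : 0 ≤ ∑ p, C2 p := Finset.sum_nonneg fun p _ => h2 p
  refine ⟨1 + ∑ p, C0 p + ∑ p, C1 p + ∑ p, C2 p, 1, 1, by positivity, by norm_num, le_rfl, one_pos,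
    fun x hx => ⟨ell_one_nonneg.2 hx.le, fun i j => ⟨?_, fun k => ?_, fun k l => ?_⟩⟩⟩
  · have := h0' (i, j) x hx.le
    rw [xi_pow_eq, show -((1 : ℕ) : ℝ) = -1 by norm_num] at this
    refine this.trans (mul_le_mul_of_nonneg_right ?_ (by positivity))
    have := Finset.single_le_sum (f := C0) (fun p _ => h0 p) (Finset.mem_univ (i, j))
    linarith
  · have := h1' (k, i, j) x hx.le
    rw [xi_pow_eq, show -((2 : ℕ) : ℝ) = -1 - 1 by norm_num] at this
    refine this.trans (mul_le_mul_of_nonneg_right ?_ (by positivity))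
    have := Finset.single_le_sum (f := C1) (fun p _ => h1 p) (Finset.mem_univ (k, i, j))
    linarith
  · have := h2' (k, l, i, j) x hx.le
    rw [xi_pow_eq, show -((2 + 1 : ℕ) : ℝ) = -1 - 2 by norm_num] at this
    refine this.trans (mul_le_mul_of_nonneg_right ?_ (by positivity))
    have := Finset.single_le_sum (f := C2) (fun p _ => h2 p) (Finset.mem_univ (k, l, i, j))
    linarith

theorem setOf_ell_one_nonneg : {x : E3 | 0 ≤ ell 1 1 x} = {x : E3 | 1 ≤ ‖x‖} := by
  ext x; simp [ell_one_nonneg]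

theorem measurableSet_ext : MeasurableSet {x : E3 | 1 ≤ ‖x‖} :=
  (isClosed_le continuous_const continuous_norm).measurableSet

theorem dec_PF : Dec 0 PF := (dec_fF.mul dec_fF).add (dec_KF.mono.mul dec_ss)

theorem integrable_scal_gM :
    IntegrableOn (fun x => scal gM x * √(gM x).det) {x | 0 ≤ ell 1 1 x} := by
  rw [setOf_ell_one_nonneg]
  obtain ⟨C, hC, h⟩ := (dec_evF LN).bound
  have hint : Integrable (fun x : E3 => (1 + ‖x‖) ^ (-(4 : ℝ))) volume :=
    integrable_one_add_norm (by simp; norm_num)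
  have e : Set.EqOn (fun x => xi x ^ 4 * (PF x)⁻¹ ^ 2 * ((1 / 1600) ^ 5 * evF LN x))
      (fun x => scal gM x * √(gM x).det) {x : E3 | 1 ≤ ‖x‖} := by
    intro x hx
    have := fF_ge hx
    have := PF_ge hx
    simp only [scal_gM hx, sqrt_det_gM hx]
    field_simp
  refine IntegrableOn.congr_fun ?_ e measurableSet_ext
  refine Integrable.mono' ((hint.const_mul (16 * 100 ^ 2 * C)).integrableOn) ?_ ?_
  · refine ContinuousOn.aestronglyMeasurable (fun x hx => ?_) measurableSet_ext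
    have hx0 := ne_zero_of_one_le hx
    have hP := PF_ge hx
    refine ContinuousAt.continuousWithinAt ?_
    exact (((contDiffAt_xi hx0).continuousAt.pow 4).mul
      (((dec_PF.contDiffAt hx0).continuousAt.inv₀ (by positivity)).pow 2)).mul
      (continuousAt_const.mul ((dec_evF LN).contDiffAt hx0).continuousAt)
  · refine (ae_restrict_iff' measurableSet_ext).2 (Eventually.of_forall fun x hx => ?_)
    have hx1 : 1 ≤ ‖x‖ := hx
    have hP := PF_ge hx
    have h1 := h x hx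
    have h2 : (PF x)⁻¹ ≤ 100 := by
      rw [inv_le_comm₀ (by positivity) (by norm_num)]; linarith
    have h3 : xi x ^ 4 ≤ 16 * (1 + ‖x‖) ^ (-(4 : ℝ)) := by
      rw [Real.rpow_neg (by positivity), show (4 : ℝ) = (4 : ℕ) by norm_num, Real.rpow_natCast, xi,
        inv_pow, ← div_eq_mul_inv, le_div_iff₀ (by positivity), inv_mul_le_iff₀ (by positivity)]
      calc (1 + ‖x‖) ^ 4 ≤ (2 * ‖x‖) ^ 4 := by gcongr; linarith
        _ = _ := by ring
    have h4 := xi_nonneg x
    rw [Real.norm_eq_abs, abs_mul, abs_mul, abs_mul, abs_of_nonneg (by positivity),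
      abs_of_nonneg (by positivity), abs_of_nonneg (a := (1 / 1600) ^ 5) (by positivity)]
    simp only [pow_zero, mul_one] at h1
    calc xi x ^ 4 * (PF x)⁻¹ ^ 2 * ((1 / 1600) ^ 5 * |evF LN x|)
        ≤ (16 * (1 + ‖x‖) ^ (-(4 : ℝ))) * 100 ^ 2 * (1 * C) := by
          gcongr; norm_num
      _ = _ := by ring

theorem admissible_gM : IsAdmissibleExtension rho (ell 1 1) gM iotaL where
  region := region_one
  smooth := ⟨{0}ᶜ, isOpen_compl_singleton,
    fun _ hx => ne_zero_of_one_le (ell_one_nonneg.1 hx),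
    fun i j _ hx => ((dec_gM i j).contDiffAt hx).contDiffWithinAt⟩
  posDef := fun _ hx => posDef_gM (ell_one_nonneg.1 hx)
  integrable_scal := integrable_scal_gM
  decay := decay_gM
  iso_smooth := iotaL.contDiff
  iso_bijOn := bijOn_iotaL
  iso_metric := fun _ hx => iso_metric (ell_one_eq_zero.1 hx)
  scal_nonneg := fun _ hx => scal_gM_nonneg (ell_one_nonneg.1 hx)
  meanCurv_le := fun _ hx => meanCurv_le (ell_one_eq_zero.1 hx)

end Pool.Agent.MP_69a10d_gt

end

-- part MP_69a10d_gt.Polar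
section

/-! Polar coordinates on the exterior of the unit ball and the moments of the sphere measure. -/

open Filter Topology MeasureTheory Set
open scoped ENNReal Pointwise

namespace Pool.Agent.MP_69a10d_gt

abbrev S2 : Type := Metric.sphere (0 : E3) 1

noncomputable abbrev sig : Measure S2 := (volume : Measure E3).toSphere

theorem lintegral_polar (G : E3 → ℝ≥0∞) (hG : Measurable G) :
    ∫⁻ x in {x : E3 | 1 < ‖x‖}, G x =
      ∫⁻ σ : S2, (∫⁻ r in Ioi (1 : ℝ), ENNReal.ofReal (r ^ 2) * G (r • (σ : E3))) ∂sig := by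
  have hm : MeasurableSet {x : E3 | 1 < ‖x‖} :=
    (isOpen_lt continuous_const continuous_norm).measurableSet
  set G' : E3 → ℝ≥0∞ := indicator {x : E3 | 1 < ‖x‖} G with hG'
  have hG'm : Measurable G' := hG.indicator hm
  have h1 : ∫⁻ x in {x : E3 | 1 < ‖x‖}, G x =
      ∫⁻ x : ({0}ᶜ : Set E3), G' x ∂((volume : Measure E3).comap (↑)) := by
    rw [lintegral_subtype_comap (measurableSet_singleton _).compl, restrict_compl_singleton,
      lintegral_indicator hm]
  have h2 := (volume : Measure E3).measurePreserving_homeomorphUnitSphereProd.lintegral_comp_emb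
    (Homeomorph.measurableEmbedding _)
    (fun p : S2 × Ioi (0 : ℝ) => G' ((p.2 : ℝ) • (p.1 : E3)))
  have h3 : ∀ x : ({0}ᶜ : Set E3),
      (((homeomorphUnitSphereProd E3 x).2 : ℝ) • ((homeomorphUnitSphereProd E3 x).1 : E3)) = x := by
    intro x
    have : ‖(x : E3)‖ ≠ 0 := norm_ne_zero_iff.2 x.2
    simp [smul_smul, this]
  simp only [h3] at h2
  rw [h1, h2, lintegral_prod _ (by fun_prop)]
  refine lintegral_congr fun σ => ?_
  have hd : Module.finrank ℝ E3 - 1 = 2 := by simp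
  rw [hd, Measure.volumeIoiPow, lintegral_withDensity_eq_lintegral_mul _ (by fun_prop) (by fun_prop)]
  simp only [Pi.mul_apply]
  rw [lintegral_subtype_comap measurableSet_Ioi
    (fun r : ℝ => ENNReal.ofReal (r ^ 2) * G' (r • (σ : E3))),
    ← lintegral_indicator measurableSet_Ioi, ← lintegral_indicator measurableSet_Ioi]
  refine lintegral_congr fun r => ?_
  have hσ : ‖(σ : E3)‖ = 1 := by simp
  by_cases hr : 1 < r
  · have h0 : 0 < r := by linarith
    simp [hG', indicator, hr, h0, norm_smul, hσ, abs_of_pos h0]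
  · by_cases h0 : 0 < r
    · simp [hG', indicator, hr, h0, norm_smul, hσ, abs_of_pos h0]
    · simp [indicator, hr, h0]

theorem sig_univ : sig.real univ = 4 * Real.pi := by
  rw [Measure.toSphere_real_apply_univ, measureReal_def, EuclideanSpace.volume_ball_fin_three]
  simp only [finrank_euclideanSpace, Fintype.card_fin, ENNReal.toReal_mul, ENNReal.toReal_pow]
  rw [ENNReal.toReal_ofReal zero_le_one, ENNReal.toReal_ofReal (by positivity)]
  push_cast; ring

/-- a linear isometry acting on the unit sphere -/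
noncomputable def sphereMap (T : E3 ≃ₗᵢ[ℝ] E3) (σ : S2) : S2 := ⟨T σ, by simp⟩

theorem continuous_sphereMap (T : E3 ≃ₗᵢ[ℝ] E3) : Continuous (sphereMap T) :=
  Continuous.subtype_mk (T.continuous.comp continuous_subtype_val) _

theorem measurePreserving_sphereMap (T : E3 ≃ₗᵢ[ℝ] E3) : MeasurePreserving (sphereMap T) sig sig := by
  refine ⟨(continuous_sphereMap T).measurable, ?_⟩
  ext s hs
  rw [Measure.map_apply (continuous_sphereMap T).measurable hs,
    Measure.toSphere_apply' _ ((continuous_sphereMap T).measurable hs), Measure.toSphere_apply' _ hs]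
  congr 1
  rw [← T.measurePreserving.measure_preimage_emb T.toHomeomorph.measurableEmbedding
    (Ioo (0 : ℝ) 1 • ((Subtype.val : S2 → E3) '' s))]
  congr 1
  ext x
  simp only [mem_preimage, Set.mem_smul, mem_image]
  constructor
  · rintro ⟨r, hr, _, ⟨σ, hσ, rfl⟩, rfl⟩
    exact ⟨r, hr, _, ⟨sphereMap T σ, hσ, rfl⟩, by simp [sphereMap]⟩
  · rintro ⟨r, hr, _, ⟨σ, hσ, rfl⟩, h⟩
    refine ⟨r, hr, _, ⟨sphereMap T.symm σ, ?_, rfl⟩, ?_⟩
    · have : sphereMap T (sphereMap T.symm σ) = σ := by ext1; simp [sphereMap]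
      rwa [this]
    · apply T.injective
      simp [sphereMap, ← h]

theorem integral_sphereMap (T : E3 ≃ₗᵢ[ℝ] E3) (φ : E3 → ℝ) (hφ : Continuous φ) :
    ∫ σ : S2, φ (T σ) ∂sig = ∫ σ : S2, φ σ ∂sig := by
  have h := measurePreserving_sphereMap T
  conv_rhs => rw [← h.map_eq]
  exact (integral_map (f := fun σ : S2 => φ σ) h.measurable.aemeasurable
    (hφ.comp continuous_subtype_val).aestronglyMeasurable).symm

theorem integrable_sphere (φ : E3 → ℝ) (hφ : Continuous φ) : Integrable (fun σ : S2 => φ σ) sig :=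
  (hφ.comp continuous_subtype_val).integrable_of_hasCompactSupport
    (HasCompactSupport.of_compactSpace _)

noncomputable def swapT (i j : Fin 3) : E3 ≃ₗᵢ[ℝ] E3 :=
  LinearIsometryEquiv.piLpCongrLeft 2 ℝ ℝ (Equiv.swap i j)

theorem swapT_apply (i j k : Fin 3) (x : E3) : swapT i j x k = x (Equiv.swap i j k) := by
  simp [swapT, LinearIsometryEquiv.piLpCongrLeft_apply, Equiv.piCongrLeft']

noncomputable def rotLin : E3 →ₗ[ℝ] E3 where
  toFun x := WithLp.toLp 2 ![(3 * x 0 + 4 * x 2) / 5, x 1, (4 * x 0 - 3 * x 2) / 5]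
  map_add' x y := by ext i; fin_cases i <;> simp <;> ring
  map_smul' c x := by ext i; fin_cases i <;> simp <;> ring

noncomputable def rotT : E3 ≃ₗᵢ[ℝ] E3 :=
  { LinearEquiv.ofInvolutive rotLin (fun x => by
      ext i; fin_cases i <;> simp [rotLin] <;> ring) with
    norm_map' := fun x => by
      rw [← sq_eq_sq₀ (norm_nonneg _) (norm_nonneg _), norm_sq_eq, norm_sq_eq]
      simp [rotLin]; ring }

theorem rotT_0 (x : E3) : rotT x 0 = (3 * x 0 + 4 * x 2) / 5 := rfl
theorem rotT_2 (x : E3) : rotT x 2 = (4 * x 0 - 3 * x 2) / 5 := rfl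

/-- the integral over the unit sphere -/
noncomputable def mom (φ : E3 → ℝ) : ℝ := ∫ σ : S2, φ σ ∂sig

theorem mom_add {φ ψ : E3 → ℝ} (hφ : Continuous φ) (hψ : Continuous ψ) :
    mom (fun x => φ x + ψ x) = mom φ + mom ψ :=
  integral_add (integrable_sphere φ hφ) (integrable_sphere ψ hψ)

theorem mom_cmul (c : ℝ) (φ : E3 → ℝ) : mom (fun x => c * φ x) = c * mom φ :=
  integral_const_mul c _

theorem mom_congr {φ ψ : E3 → ℝ} (h : ∀ x : E3, x 0 * x 0 + x 1 * x 1 + x 2 * x 2 = 1 → φ x = ψ x) :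
    mom φ = mom ψ := by
  refine integral_congr_ae (Eventually.of_forall fun σ => h _ ?_)
  have hσ : ‖(σ : E3)‖ = 1 := by simp
  rw [← norm_sq_eq, hσ]; norm_num

theorem mom_one : mom (fun _ => 1) = 4 * Real.pi := by
  rw [mom, integral_const, sig_univ]; simp

theorem mom_swap (i j : Fin 3) (φ : E3 → ℝ) (hφ : Continuous φ) :
    mom (fun x => φ (swapT i j x)) = mom φ := integral_sphereMap _ φ hφ

theorem mom_z2 : mom (fun x => x 2 ^ 2) = 4 * Real.pi / 3 := by
  have h0 := mom_swap 0 2 (fun x => x 2 ^ 2) (by fun_prop)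
  have h1 := mom_swap 1 2 (fun x => x 2 ^ 2) (by fun_prop)
  simp only [swapT_apply, Equiv.swap_apply_right] at h0 h1
  have h := mom_congr (φ := fun x => x 0 ^ 2 + x 1 ^ 2 + x 2 ^ 2) (ψ := fun _ => 1)
    (fun x hx => by linarith)
  rw [mom_add (by fun_prop) (by fun_prop), mom_add (by fun_prop) (by fun_prop), mom_one] at h
  linarith

theorem mom_z4 : mom (fun x => x 2 ^ 4) = 4 * Real.pi / 5 := by
  have h0 := mom_swap 0 2 (fun x => x 2 ^ 4) (by fun_prop)
  have h1 := mom_swap 0 1 (fun x => x 0 ^ 2 * x 2 ^ 2) (by fun_prop)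
  have h2 := mom_swap 0 2 (fun x => x 0 ^ 3 * x 2) (by fun_prop)
  have e02 : Equiv.swap (0 : Fin 3) 1 2 = 2 := by decide
  simp only [swapT_apply, Equiv.swap_apply_right, Equiv.swap_apply_left, e02] at h0 h1 h2
  have h3 := mom_congr (φ := fun x => x 0 ^ 2 * x 2 ^ 2 + x 1 ^ 2 * x 2 ^ 2 + x 2 ^ 4)
    (ψ := fun x => x 2 ^ 2) (fun x hx => by linear_combination x 2 ^ 2 * hx)
  rw [mom_add (by fun_prop) (by fun_prop), mom_add (by fun_prop) (by fun_prop), mom_z2] at h3
  have h4 : mom (fun x => rotT x 0 ^ 4 + rotT x 2 ^ 4) = mom (fun x => x 0 ^ 4 + x 2 ^ 4) :=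
    integral_sphereMap rotT (fun x => x 0 ^ 4 + x 2 ^ 4) (by fun_prop)
  have h5 := mom_congr (φ := fun x => rotT x 0 ^ 4 + rotT x 2 ^ 4)
    (ψ := fun x => 337 / 625 * x 0 ^ 4 + 337 / 625 * x 2 ^ 4 + 1728 / 625 * (x 0 ^ 2 * x 2 ^ 2)
      + (-336 / 625) * (x 0 ^ 3 * x 2) + 336 / 625 * (x 2 ^ 3 * x 0))
    (fun x _ => by rw [rotT_0, rotT_2]; ring)
  rw [h4, mom_add (by fun_prop) (by fun_prop), mom_add (by fun_prop) (by fun_prop),
    mom_add (by fun_prop) (by fun_prop), mom_add (by fun_prop) (by fun_prop),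
    mom_add (by fun_prop) (by fun_prop), mom_cmul, mom_cmul, mom_cmul, mom_cmul, mom_cmul] at h5
  linarith

theorem mom_quad (a b c : ℝ) :
    mom (fun x => a + b * (x 0 * x 0 + x 1 * x 1) + c * (x 0 * x 0 + x 1 * x 1) ^ 2) =
      4 * Real.pi * (a + 2 / 3 * b + 8 / 15 * c) := by
  rw [mom_congr (ψ := fun x => (a + b + c) * 1 + (-b - 2 * c) * x 2 ^ 2 + c * x 2 ^ 4)
    (fun x hx => by
      have : x 0 * x 0 + x 1 * x 1 = 1 - x 2 ^ 2 := by linarith
      rw [this]; ring),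
    mom_add (by fun_prop) (by fun_prop), mom_add (by fun_prop) (by fun_prop), mom_cmul, mom_cmul,
    mom_cmul, mom_one, mom_z2, mom_z4]
  ring

end Pool.Agent.MP_69a10d_gt

end

-- part MP_69a10d_gt.CapLower
section

/-! The lower bound for the capacity of the unit sphere in the metric of the example. -/

open Filter Topology MeasureTheory Set
open scoped ENNReal NNReal

namespace Pool.Agent.MP_69a10d_gt
open Pool.Agent.Lib.BiPoly

theorem ofReal_integral_le {α : Type*} [MeasurableSpace α] {μ : Measure α} {h : α → ℝ}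
    (hi : Integrable h μ) : ENNReal.ofReal (∫ x, h x ∂μ) ≤ ∫⁻ x, ENNReal.ofReal (h x) ∂μ := by
  have h1 : ∫ x, h x ∂μ ≤ ∫ x, max (h x) 0 ∂μ :=
    integral_mono hi hi.pos_part (fun x => le_max_left _ _)
  refine (ENNReal.ofReal_le_ofReal h1).trans (le_of_eq ?_)
  rw [ofReal_integral_eq_lintegral_ofReal hi.pos_part (Eventually.of_forall fun x => le_max_right _ _)]
  refine lintegral_congr fun x => ?_
  rcases le_total (h x) 0 with hx | hx
  · rw [max_eq_right hx, ENNReal.ofReal_of_nonpos hx, ENNReal.ofReal_zero]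
  · rw [max_eq_left hx]

theorem energy_ge (ψ : E3 → ℝ) {y : E3} (hy : 1 ≤ ‖y‖) :
    (fderiv ℝ ψ y y) ^ 2 * (fF y * xi y ^ 2) ≤ gradSq gM ψ y * √(gM y).det := by
  have hf := fF_ge hy
  have hP := PF_ge hy
  have hx := xi_rel (ne_zero_of_one_le hy)
  have hT := T_eq y
  rw [sqrt_det_gM hy, gradSq, inv_gM hy, fderiv_apply_eq_sum]
  simp only [Fin.sum_univ_three, Matrix.of_apply]
  simp only [dl, W, Matrix.cons_val_zero, Matrix.cons_val_one, Matrix.cons_val_two,
    Matrix.head_cons, Matrix.tail_cons]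
  generalize pd 0 ψ y = p0, pd 1 ψ y = p1, pd 2 ψ y = p2, y 0 = a, y 1 = b, y 2 = z at *
  generalize xi y = x, PF y = P, SF y = S, fF y = f at *
  set D := p0 ^ 2 + p1 ^ 2 + p2 ^ 2 - (a * p0 + b * p1 + z * p2) ^ 2 * x ^ 2 with hD
  have hD0 : 0 ≤ D := by
    have : D = x ^ 2 * ((a * p1 - b * p0) ^ 2 + (a * p2 - z * p0) ^ 2 + (b * p2 - z * p1) ^ 2) := by
      rw [hD]; linear_combination (-(p0 ^ 2 + p1 ^ 2 + p2 ^ 2)) * hx
    rw [this]; positivity
  have hD1 : (a * p1 - b * p0) ^ 2 ≤ (a * a + b * b) * D := by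
    have : (a * a + b * b) * D - (a * p1 - b * p0) ^ 2 =
        x ^ 2 * ((a * a + b * b) * p2 - z * (a * p0 + b * p1)) ^ 2 := by
      rw [hD]
      linear_combination (-((a * a + b * b) * (p0 ^ 2 + p1 ^ 2 + p2 ^ 2) - (a * p1 - b * p0) ^ 2)) * hx
    have h2 : 0 ≤ x ^ 2 * ((a * a + b * b) * p2 - z * (a * p0 + b * p1)) ^ 2 := by positivity
    linarith
  have key : S * (a * p1 - b * p0) ^ 2 ≤ f * f * D := by
    rcases le_total S 0 with hS | hS
    · have := mul_nonpos_of_nonpos_of_nonneg hS (sq_nonneg (a * p1 - b * p0))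
      have : 0 ≤ f * f * D := by positivity
      linarith
    · have h1 := mul_le_mul_of_nonneg_left hD1 hS
      have h2 : 0 ≤ P * D := by positivity
      rw [← hT]; nlinarith
  rw [← sub_nonneg]
  have hf0 : f ≠ 0 := by positivity
  have hP0 : P ≠ 0 := by positivity
  have : 0 ≤ (f * f * D - S * (a * p1 - b * p0) ^ 2) / f := div_nonneg (by linarith) (by positivity)
  convert this using 1
  rw [hD]; field_simp; ring

def LQ : List (List ℤ) :=
  [[0, 0, 0], [12821760, 206640, -282240], [-8520120, -5019840, 6672960],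
    [73489920, 72468480, -94671360], [-347155200, -352195200, 468357120],
    [1092962304, 1099542528, -1468293120], [-2082877440, -2030407680, 2745630720],
    [2343075840, 2182348800, -2996305920], [-1429585920, -1274757120, 1775370240],
    [367001600, 311951360, -440401920]]

theorem dX_LQ (x y : ℝ) : ev (dX LQ) x y = 2520 * ev Lp x y := by
  rw [ev_eq_of_isZero (P := dX LQ) (Q := smul 2520 Lp) (by decide +kernel), ev_smul]; norm_num

theorem LQ_zero (s : ℝ) : ev LQ 0 s = 0 := by simp [LQ]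
theorem LQ_one (s : ℝ) : ev LQ 1 s = 21212744 + 4137968 * s - 3923520 * s ^ 2 := by
  simp [LQ]; ring

theorem hasDerivAt_ev (L : List (List ℤ)) (x s : ℝ) :
    HasDerivAt (fun t => ev L t s) (ev (dX L) x s) x := by
  have := (hasFDerivAt_ev (hasFDerivAt_id x) (hasFDerivAt_const s x) L).hasDerivAt
  simpa using this

theorem continuous_ev (L : List (List ℤ)) (s : ℝ) : Continuous (fun t => ev L t s) :=
  continuous_iff_continuousAt.2 fun x => (hasDerivAt_ev L x s).continuousAt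

theorem ray_bound {η : ℝ → ℝ} {K : ℝ≥0} (hη : LipschitzWith K η) (h1 : η 1 = 0)
    (hlim : Tendsto η atTop (𝓝 1)) {s : ℝ} (hs0 : 0 ≤ s) (hs1 : s ≤ 1) (c : ℝ) :
    ENNReal.ofReal (2 * c - c ^ 2 * (ev LQ 1 s / 12600000)) ≤
      ∫⁻ r in Ioi (1 : ℝ), ENNReal.ofReal (deriv η r ^ 2 * (r ^ 2 * (1 / 1600 * ev Lf r⁻¹ s))) := by
  have hT : Tendsto (fun R : ℝ => ENNReal.ofReal
      (2 * c * η R - c ^ 2 * ((ev LQ 1 s - ev LQ R⁻¹ s) / 12600000))) atTop
      (𝓝 (ENNReal.ofReal (2 * c * 1 - c ^ 2 * ((ev LQ 1 s - ev LQ 0 s) / 12600000)))) := by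
    refine ENNReal.tendsto_ofReal ((hlim.const_mul _).sub (Tendsto.const_mul _ (Tendsto.div_const
      (tendsto_const_nhds.sub ?_) _)))
    exact ((continuous_ev LQ s).tendsto 0).comp tendsto_inv_atTop_zero
  rw [LQ_zero, mul_one, sub_zero] at hT
  refine le_of_tendsto hT ?_
  filter_upwards [eventually_ge_atTop 1] with R hR
  have hAC : AbsolutelyContinuousOnInterval η 1 R :=
    (hη.lipschitzOnWith (s := uIcc 1 R)).absolutelyContinuousOnInterval
  have hq : ∀ r ∈ uIcc 1 R, HasDerivAt (fun r => -(ev LQ r⁻¹ s) / 12600000)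
      (ev Lp r⁻¹ s / (5000 * r ^ 2)) r := by
    intro r hr
    rw [uIcc_of_le hR] at hr
    have hr0 : r ≠ 0 := by have := hr.1; positivity
    have := (((hasDerivAt_ev LQ r⁻¹ s).comp r (hasDerivAt_inv hr0)).neg).div_const 12600000
    refine HasDerivAt.congr_deriv this ?_
    rw [dX_LQ]; field_simp; ring
  have hqc : ContinuousOn (fun r => ev Lp r⁻¹ s / (5000 * r ^ 2)) (uIcc 1 R) := by
    intro r hr
    rw [uIcc_of_le hR] at hr
    have hr0 : r ≠ 0 := by have := hr.1; positivity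
    refine ContinuousAt.continuousWithinAt (ContinuousAt.div
      ((continuous_ev Lp s).continuousAt.comp (continuousAt_inv₀ hr0)) (by fun_prop) (by positivity))
  have hqi := hqc.intervalIntegrable (μ := volume)
  have e1 := intervalIntegral.integral_eq_sub_of_hasDerivAt hq hqi
  have e2 := hAC.integral_deriv_eq_sub
  have hint : IntervalIntegrable
      (fun r => 2 * c * deriv η r - c ^ 2 * (ev Lp r⁻¹ s / (5000 * r ^ 2))) volume 1 R :=
    (hAC.intervalIntegrable_deriv.const_mul _).sub (hqi.const_mul _)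
  have e3 : ∫ r in (1 : ℝ)..R, (2 * c * deriv η r - c ^ 2 * (ev Lp r⁻¹ s / (5000 * r ^ 2))) =
      2 * c * η R - c ^ 2 * ((ev LQ 1 s - ev LQ R⁻¹ s) / 12600000) := by
    rw [intervalIntegral.integral_sub (hAC.intervalIntegrable_deriv.const_mul _) (hqi.const_mul _),
      intervalIntegral.integral_const_mul, intervalIntegral.integral_const_mul, e1, e2, h1, inv_one]
    ring
  rw [← e3, intervalIntegral.integral_of_le hR]
  refine (ofReal_integral_le hint.1).trans ?_
  refine le_trans (setLIntegral_mono' measurableSet_Ioc fun r hr => ?_)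
    (lintegral_mono_set Ioc_subset_Ioi_self)
  refine ENNReal.ofReal_le_ofReal ?_
  have hr1 : 1 ≤ r := hr.1.le
  have hr0 : 0 < r := by linarith
  have hi0 : 0 ≤ r⁻¹ := by positivity
  have hi1 : r⁻¹ ≤ 1 := inv_le_one_of_one_le₀ hr1
  have hf := Lf_ge hi0 hi1 hs0 hs1
  have hp := Lp_mul_ge hi0 hi1 hs0 hs1
  set w := r ^ 2 * (1 / 1600 * ev Lf r⁻¹ s) with hw
  set q := ev Lp r⁻¹ s / (5000 * r ^ 2) with hq'
  have hw0 : 0 < w := by positivity
  have hwq : 1 ≤ w * q := by
    have : w * q = ev Lp r⁻¹ s * ev Lf r⁻¹ s / 8000000 := by rw [hw, hq']; field_simp; ring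
    rw [this]; linarith
  generalize deriv η r = a
  have h3 : 0 ≤ w * (a ^ 2 * w - (2 * c * a - c ^ 2 * q)) := by
    have : w * (a ^ 2 * w - (2 * c * a - c ^ 2 * q)) = (a * w - c) ^ 2 + c ^ 2 * (w * q - 1) := by ring
    rw [this]
    have : 0 ≤ w * q - 1 := by linarith
    positivity
  have := nonneg_of_mul_nonneg_right h3 hw0
  linarith

theorem measurable_ev1 {α : Type*} [MeasurableSpace α] {Y : α → ℝ} (hY : Measurable Y) :
    ∀ r : List ℤ, Measurable (fun a => ev1 r (Y a))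
  | [] => measurable_const
  | _ :: r => measurable_const.add (hY.mul (measurable_ev1 hY r))

theorem measurable_ev {α : Type*} [MeasurableSpace α] {X Y : α → ℝ} (hX : Measurable X)
    (hY : Measurable Y) : ∀ L : List (List ℤ), Measurable (fun a => ev L (X a) (Y a))
  | [] => measurable_const
  | r :: L => (measurable_ev1 hY r).add (hX.mul (measurable_ev hX hY L))

theorem measurable_xi : Measurable xi := measurable_norm.inv
theorem measurable_ss : Measurable ss := by
  have := measurable_xi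
  unfold ss; fun_prop

theorem ae_ray_differentiableAt {ψ : E3 → ℝ} {K : ℝ≥0} (hψ : LipschitzWith K ψ) :
    ∀ᵐ σ : S2 ∂sig, ∀ᵐ r ∂(volume.restrict (Ioi (1 : ℝ))), DifferentiableAt ℝ ψ (r • (σ : E3)) := by
  set N : Set E3 := {x | DifferentiableAt ℝ ψ x}ᶜ with hN
  have hNm : MeasurableSet N := (measurableSet_of_differentiableAt ℝ ψ).compl
  have hN0 : volume N = 0 := hψ.ae_differentiableAt (μ := volume)
  have hG : Measurable (N.indicator (1 : E3 → ℝ≥0∞)) := measurable_one.indicator hNm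
  have h := lintegral_polar _ hG
  rw [lintegral_indicator_one hNm, Measure.restrict_apply hNm,
    measure_mono_null inter_subset_left hN0] at h
  have hm : Measurable (fun p : S2 × ℝ =>
      ENNReal.ofReal (p.2 ^ 2) * N.indicator (1 : E3 → ℝ≥0∞) (p.2 • (p.1 : E3))) := by fun_prop
  have h2 := (lintegral_eq_zero_iff (hm.lintegral_prod_right' (ν := volume.restrict (Ioi 1)))).1 h.symm
  filter_upwards [h2] with σ hσ
  have h3 := (lintegral_eq_zero_iff (hm.comp measurable_prodMk_left)).1 hσ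
  filter_upwards [h3, ae_restrict_mem measurableSet_Ioi] with r hr hr1
  have hr0 : (0 : ℝ) < r := lt_trans one_pos hr1
  by_contra hd
  have : r • (σ : E3) ∈ N := hd
  simp [this, hr0.ne'] at hr

theorem lower_global {ψ : E3 → ℝ} {K : ℝ≥0} (hψ : LipschitzWith K ψ)
    (h0 : ∀ x : E3, ‖x‖ = 1 → ψ x = 0)
    (hlim : Tendsto ψ (cocompact E3 ⊓ 𝓟 {x | 1 ≤ ‖x‖}) (𝓝 1)) :
    ENNReal.ofReal (4 * Real.pi * (1151 / 2000)) ≤
      ∫⁻ y in {x : E3 | 1 < ‖x‖}, ENNReal.ofReal ((fderiv ℝ ψ y y) ^ 2 * (fF y * xi y ^ 2)) := by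
  have hG : Measurable (fun y : E3 => ENNReal.ofReal ((fderiv ℝ ψ y y) ^ 2 * (fF y * xi y ^ 2))) := by
    have h1 : Measurable (fun y : E3 => fderiv ℝ ψ y y) := by
      have e : (fun y : E3 => fderiv ℝ ψ y y) = fun y => ∑ i, y i * pd i ψ y :=
        funext fun y => fderiv_apply_eq_sum ψ y y
      rw [e]
      simp only [Fin.sum_univ_three, pd]
      have := fun v => measurable_fderiv_apply_const ℝ ψ v
      fun_prop
    have h2 : Measurable fF := (measurable_ev measurable_xi measurable_ss Lf).const_mul _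
    have h3 := measurable_xi
    fun_prop
  rw [lintegral_polar _ hG]
  let φ : E3 → ℝ := fun x => (2 * (72 / 125) - (72 / 125) ^ 2 * (21212744 / 12600000)) +
    (-(72 / 125) ^ 2 * (4137968 / 12600000)) * (x 0 * x 0 + x 1 * x 1) +
    ((72 / 125) ^ 2 * (3923520 / 12600000)) * (x 0 * x 0 + x 1 * x 1) ^ 2
  have hφ : 4 * Real.pi * (1151 / 2000) ≤ mom φ := by
    rw [mom_quad]
    refine mul_le_mul_of_nonneg_left (by norm_num) (by positivity)
  refine (ENNReal.ofReal_le_ofReal hφ).trans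
    ((ofReal_integral_le (integrable_sphere φ (by fun_prop))).trans (lintegral_mono_ae ?_))
  filter_upwards [ae_ray_differentiableAt hψ] with σ hσ
  have hn : ‖(σ : E3)‖ = 1 := by simp
  have hη : LipschitzWith (K * 1) (fun r : ℝ => ψ (r • (σ : E3))) := by
    refine hψ.comp (LipschitzWith.of_dist_le_mul fun a b => ?_)
    rw [dist_eq_norm, ← sub_smul, norm_smul, hn, dist_eq_norm]; simp
  have hlim' : Tendsto (fun r : ℝ => ψ (r • (σ : E3))) atTop (𝓝 1) := by
    refine hlim.comp (tendsto_inf.2 ⟨?_, tendsto_principal.2 ?_⟩)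
    · rw [← Metric.cobounded_eq_cocompact, ← tendsto_norm_atTop_iff_cobounded]
      simp only [norm_smul, hn, mul_one]
      exact tendsto_norm_atTop_atTop
    · filter_upwards [eventually_ge_atTop 1] with r hr
      show 1 ≤ ‖r • (σ : E3)‖
      rw [norm_smul, hn, mul_one, Real.norm_eq_abs]
      exact hr.trans (le_abs_self r)
  have h := ray_bound hη (by simpa using h0 σ hn) hlim' (ss_nonneg σ) (ss_le_one σ) (72 / 125)
  have e : φ σ = 2 * (72 / 125) - (72 / 125) ^ 2 * (ev LQ 1 (ss σ) / 12600000) := by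
    rw [LQ_one, ss_sphere hn]; simp only [φ]; ring
  rw [e]
  refine h.trans (le_of_eq (lintegral_congr_ae ?_))
  filter_upwards [hσ, ae_restrict_mem measurableSet_Ioi] with r hr hr1
  have hr0 : (0 : ℝ) < r := lt_trans one_pos hr1
  have hd : deriv (fun r : ℝ => ψ (r • (σ : E3))) r = fderiv ℝ ψ (r • (σ : E3)) σ := by
    have := hr.hasFDerivAt.comp_hasDerivAt r ((hasDerivAt_id r).smul_const (σ : E3))
    have h2 := this.deriv
    rw [one_smul] at h2
    exact h2
  have hxi : xi (r • (σ : E3)) = r⁻¹ := by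
    rw [xi, norm_smul, hn, mul_one, Real.norm_eq_abs, abs_of_pos hr0]
  have hss : ss (r • (σ : E3)) = ss σ := by
    rw [ss_sphere hn, ss, hxi]; simp; field_simp
  rw [← ENNReal.ofReal_mul (by positivity), hd, map_smul, fF, evF, hxi, hss]
  congr 1
  simp only [smul_eq_mul]
  field_simp

theorem capacity_gM_ge : ENNReal.ofReal (1151 / 2000) ≤ capacity gM (ell 1 1) := by
  refine le_iInf fun ψ => le_iInf fun ⟨K, hK⟩ => le_iInf fun h0 => le_iInf fun hlim => ?_
  rw [setOf_ell_one_nonneg] at hK hlim ⊢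
  obtain ⟨ψ', hψ', heq⟩ := hK.extend_real
  have hm : MeasurableSet {x : E3 | 1 < ‖x‖} :=
    (isOpen_lt continuous_const continuous_norm).measurableSet
  have h := lower_global hψ' (fun x hx => by
      rw [← heq (show 1 ≤ ‖x‖ from hx.ge)]; exact h0 x (ell_one_eq_zero.2 hx))
    (hlim.congr' (eventually_inf_principal.2 (Eventually.of_forall fun x hx => heq hx)))
  have hpi : 0 < 1 / (4 * Real.pi) := by positivity
  calc ENNReal.ofReal (1151 / 2000)
      = ENNReal.ofReal (1 / (4 * Real.pi)) * ENNReal.ofReal (4 * Real.pi * (1151 / 2000)) := by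
        rw [← ENNReal.ofReal_mul hpi.le]; congr 1; field_simp
    _ ≤ ENNReal.ofReal (1 / (4 * Real.pi)) * ∫⁻ y in {x : E3 | 1 < ‖x‖},
        ENNReal.ofReal ((fderiv ℝ ψ' y y) ^ 2 * (fF y * xi y ^ 2)) := by gcongr
    _ = ∫⁻ y in {x : E3 | 1 < ‖x‖}, ENNReal.ofReal (1 / (4 * Real.pi) *
        ((fderiv ℝ ψ' y y) ^ 2 * (fF y * xi y ^ 2))) := by
        rw [← lintegral_const_mul' _ _ ENNReal.ofReal_ne_top]
        simp only [ENNReal.ofReal_mul hpi.le]
    _ ≤ ∫⁻ y in {x : E3 | 1 < ‖x‖}, ENNReal.ofReal (1 / (4 * Real.pi) *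
        (gradSq gM ψ y * √(gM y).det)) := by
        refine setLIntegral_mono' hm fun y hy => ENNReal.ofReal_le_ofReal ?_
        have : fderiv ℝ ψ' y = fderiv ℝ ψ y := by
          refine EventuallyEq.fderiv_eq ?_
          filter_upwards [(isOpen_lt continuous_const continuous_norm).mem_nhds hy] with w hw
          exact (heq (show 1 ≤ ‖w‖ from le_of_lt hw)).symm
        rw [this]
        exact mul_le_mul_of_nonneg_left (energy_ge ψ (le_of_lt hy)) hpi.le
    _ ≤ _ := lintegral_mono_set fun x (hx : 1 < ‖x‖) => hx.le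

end Pool.Agent.MP_69a10d_gt

end

-- part MP_69a10d_gt.CapUpper
section

/-! The upper bound for the Euclidean capacity of the ellipsoid. -/

open Filter Topology MeasureTheory Set
open scoped ENNReal NNReal

namespace Pool.Agent.MP_69a10d_gt

noncomputable def foc : E3 := EuclideanSpace.single 2 (51 / 32)
noncomputable def sg (x : E3) : ℝ := (‖x - foc‖ + ‖x + foc‖) / 2
noncomputable def hh (t : ℝ) : ℝ := 1 - Real.log ((t + 51 / 32) / (t - 51 / 32)) / (8 * Real.log 2)
noncomputable def al (y : E3) : ℝ := 289 / 320 - 45 / 64 * (xi y * xi y)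
noncomputable def ga (y : E3) : ℝ := 289 / 320 + 45 / 64 * (xi y * xi y)
noncomputable def Phi (y : E3) : E3 :=
  (al y * y 0) • EuclideanSpace.single 0 1 + (al y * y 1) • EuclideanSpace.single 1 1 +
    (ga y * y 2) • EuclideanSpace.single 2 1

@[simp] theorem Phi_0 (y : E3) : Phi y 0 = al y * y 0 := by simp [Phi]
@[simp] theorem Phi_1 (y : E3) : Phi y 1 = al y * y 1 := by simp [Phi]
@[simp] theorem Phi_2 (y : E3) : Phi y 2 = ga y * y 2 := by simp [Phi]

theorem xi_mul_norm {y : E3} (hy : 1 ≤ ‖y‖) : xi y * ‖y‖ = 1 := inv_mul_cancel₀ (by positivity)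

theorem al_ge {y : E3} (hy : 1 ≤ ‖y‖) : 1 / 5 ≤ al y := by
  have h1 := xi_le_one hy
  have h0 := xi_nonneg y
  unfold al; nlinarith

theorem S_ge {y : E3} (hy : 1 ≤ ‖y‖) : 257 / 160 ≤ ‖y‖ * ga y := by
  have h := xi_mul_norm hy
  have h1 := xi_le_one hy
  have h0 := xi_nonneg y
  have : ‖y‖ * ga y - 257 / 160 = (‖y‖ - 1) * (289 / 320 - 45 / 64 * xi y) := by
    unfold ga; linear_combination (45 / 64 * xi y + 45 / 64) * h
  have h2 : 0 ≤ (‖y‖ - 1) * (289 / 320 - 45 / 64 * xi y) :=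
    mul_nonneg (by linarith) (by linarith)
  linarith

theorem abs_tau_le {y : E3} (hy : 1 ≤ ‖y‖) : |y 2 * xi y| ≤ 1 := by
  have h0 : 0 < ‖y‖ := by linarith
  rw [abs_mul, abs_of_nonneg (xi_nonneg y), xi, ← div_eq_mul_inv, div_le_one h0]
  exact abs_coord_le y 2

theorem norm_Phi_sub {y : E3} (hy : 1 ≤ ‖y‖) :
    ‖Phi y - foc‖ = ‖y‖ * ga y - 51 / 32 * (y 2 * xi y) := by
  have h := xi_mul_norm hy
  have h1 := abs_le.1 (abs_tau_le hy)
  have h2 := S_ge hy
  have h3 := norm_sq_eq y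
  rw [← sq_eq_sq₀ (norm_nonneg _) (by linarith), norm_sq_eq]
  simp [foc, ga, al]
  generalize xi y = x, ‖y‖ = r at *
  linear_combination (-(289 / 320 - 45 / 64 * (x * x)) ^ 2) * h3 +
    (51 / 16 * y 2 * (289 / 320 + 45 / 64 * (x * x)) - 2601 / 1024 * (x * r + 1)) * h

theorem norm_Phi_add {y : E3} (hy : 1 ≤ ‖y‖) :
    ‖Phi y + foc‖ = ‖y‖ * ga y + 51 / 32 * (y 2 * xi y) := by
  have h := xi_mul_norm hy
  have h1 := abs_le.1 (abs_tau_le hy)
  have h2 := S_ge hy
  have h3 := norm_sq_eq y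
  rw [← sq_eq_sq₀ (norm_nonneg _) (by linarith), norm_sq_eq]
  simp [foc, ga, al]
  generalize xi y = x, ‖y‖ = r at *
  linear_combination (-(289 / 320 - 45 / 64 * (x * x)) ^ 2) * h3 +
    (-51 / 16 * y 2 * (289 / 320 + 45 / 64 * (x * x)) - 2601 / 1024 * (x * r + 1)) * h

theorem sg_Phi {y : E3} (hy : 1 ≤ ‖y‖) : sg (Phi y) = ‖y‖ * ga y := by
  rw [sg, norm_Phi_sub hy, norm_Phi_add hy]; ring

theorem Phi_sphere {y : E3} (hy : ‖y‖ = 1) : Phi y = iotaL y := by
  ext i; fin_cases i <;> simp [al, ga, xi_sphere hy] <;> left <;> norm_num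

theorem Phi_surj {x : E3} (hx : 0 < rho x) : ∃ y : E3, 1 < ‖y‖ ∧ Phi y = x := by
  let f : ℝ → ℝ := fun r => 289 / 320 * r - 45 / 64 * r⁻¹
  let S : ℝ → ℝ := fun r => 289 / 320 * r + 45 / 64 * r⁻¹
  have hf : ∀ r, 1 ≤ r → r / 5 ≤ f r := fun r hr => by
    have : r⁻¹ ≤ 1 := inv_le_one_of_one_le₀ hr
    simp only [f]; linarith
  have hS : ∀ r, 1 ≤ r → r / 5 ≤ S r := fun r hr => by
    have : 0 ≤ r⁻¹ := by positivity
    simp only [S]; linarith
  let G : ℝ → ℝ := fun r => (x 0 * x 0 + x 1 * x 1) / f r ^ 2 + x 2 * x 2 / S r ^ 2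
  have hR : (1 : ℝ) ≤ 1 + 5 * ‖x‖ := by have := norm_nonneg x; linarith
  have hc : ContinuousOn G (Icc 1 (1 + 5 * ‖x‖)) := by
    intro r hr
    have h1 := hf r hr.1
    have h2 := hS r hr.1
    have h0 : 0 < r := by linarith [hr.1]
    have : r ≠ 0 := h0.ne'
    have : f r ^ 2 ≠ 0 := by have : 0 < f r := by linarith
                             positivity
    have : S r ^ 2 ≠ 0 := by have : 0 < S r := by linarith
                             positivity
    refine ContinuousAt.continuousWithinAt ?_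
    simp only [G, f, S] at *
    fun_prop (disch := assumption)
  have h1 : 1 < G 1 := by
    simp only [G, f, S, rho, ell] at hx ⊢
    norm_num
    linarith
  have h2 : G (1 + 5 * ‖x‖) < 1 := by
    have a1 := hf _ hR
    have a2 := hS _ hR
    have hn := norm_nonneg x
    have b0 : 0 < (1 + 5 * ‖x‖) / 5 := by positivity
    have u0 : 0 ≤ x 0 * x 0 + x 1 * x 1 := add_nonneg (mul_self_nonneg _) (mul_self_nonneg _)
    have u1 : 0 ≤ x 2 * x 2 := mul_self_nonneg _
    calc G (1 + 5 * ‖x‖) ≤ (x 0 * x 0 + x 1 * x 1) / ((1 + 5 * ‖x‖) / 5) ^ 2 +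
          x 2 * x 2 / ((1 + 5 * ‖x‖) / 5) ^ 2 := by simp only [G]; gcongr
      _ = ‖x‖ ^ 2 / ((1 + 5 * ‖x‖) / 5) ^ 2 := by rw [norm_sq_eq]; ring
      _ < 1 := by rw [div_lt_one (by positivity)]; gcongr; linarith
  obtain ⟨r, hr, hG⟩ := intermediate_value_Ioo' hR hc ⟨h2, h1⟩
  have hr0 : 0 < r := by linarith [hr.1]
  have f0 : 0 < f r := by have := hf r hr.1.le; linarith
  have S0 : 0 < S r := by have := hS r hr.1.le; linarith
  let y : E3 := WithLp.toLp 2 ![r * x 0 / f r, r * x 1 / f r, r * x 2 / S r]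
  have hy : ‖y‖ = r := by
    rw [← sq_eq_sq₀ (norm_nonneg _) hr0.le, norm_sq_eq]
    have : r ^ 2 * G r = r ^ 2 := by rw [hG, mul_one]
    rw [← this]
    simp [y, G]; field_simp
  have ea : al y = f r / r := by simp only [al, xi, hy, f]; field_simp
  have eg : ga y = S r / r := by simp only [ga, xi, hy, S]; field_simp
  refine ⟨y, by rw [hy]; exact hr.1, ?_⟩
  ext i; fin_cases i <;> simp [ea, eg] <;> simp [y] <;> field_simp

theorem Phi_injOn : InjOn Phi {y : E3 | 1 < ‖y‖} := by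
  intro y hy w hw h
  have hy1 : 1 ≤ ‖y‖ := le_of_lt hy
  have hw1 : 1 ≤ ‖w‖ := le_of_lt hw
  have e := sg_Phi hy1
  rw [h, sg_Phi hw1] at e
  have a1 := xi_mul_norm hy1
  have a2 := xi_mul_norm hw1
  have hn : ‖y‖ = ‖w‖ := by
    have : (‖w‖ - ‖y‖) * (289 / 320 - 45 / 64 * (xi y * xi w)) = 0 := by
      unfold ga at e
      linear_combination e - 45 / 64 * (xi w + xi y) * a2 + 45 / 64 * (xi w + xi y) * a1
    rcases mul_eq_zero.1 this with h1 | h1
    · linarith
    · have := mul_le_one₀ (xi_le_one hy1) (xi_nonneg w) (xi_le_one hw1)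
      linarith
  have ea : al y = al w := by simp only [al, xi, hn]
  have eg : ga y = ga w := by simp only [ga, xi, hn]
  have p1 : al w ≠ 0 := by have := al_ge hw1; positivity
  have p2 : ga w ≠ 0 := by have := mul_self_nonneg (xi w); unfold ga; positivity
  have h0 := congrArg (fun v : E3 => v 0) h
  have h1 := congrArg (fun v : E3 => v 1) h
  have h2 := congrArg (fun v : E3 => v 2) h
  simp only [Phi_0, Phi_1, Phi_2, ea, eg] at h0 h1 h2
  ext i; fin_cases i
  · exact mul_left_cancel₀ p1 h0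
  · exact mul_left_cancel₀ p1 h1
  · exact mul_left_cancel₀ p2 h2

noncomputable def rad (y : E3) : E3 →L[ℝ] ℝ := y 0 • pr 0 + y 1 • pr 1 + y 2 • pr 2

noncomputable def Phi' (y : E3) : E3 →L[ℝ] E3 :=
  (al y • pr 0 + (45 / 32 * xi y ^ 4 * y 0) • rad y).smulRight (EuclideanSpace.single 0 1) +
  (al y • pr 1 + (45 / 32 * xi y ^ 4 * y 1) • rad y).smulRight (EuclideanSpace.single 1 1) +
  (ga y • pr 2 + (-(45 / 32) * xi y ^ 4 * y 2) • rad y).smulRight (EuclideanSpace.single 2 1)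

theorem hasFDerivAt_Phi {y : E3} (hy : y ≠ 0) : HasFDerivAt Phi (Phi' y) y := by
  have hx := ((ax_xi y hy).fun_mul (ax_xi y hy)).const_mul (45 / 64)
  have ha : HasFDerivAt al ((45 / 32 * xi y ^ 4) • rad y) y := by
    refine HasFDerivAt.congr_fderiv (hx.const_sub (289 / 320)) ?_
    ext v; simp [rad]; ring
  have hg : HasFDerivAt ga ((-(45 / 32) * xi y ^ 4) • rad y) y := by
    refine HasFDerivAt.congr_fderiv (hx.const_add (289 / 320)) ?_
    ext v; simp [rad]; ring
  refine HasFDerivAt.congr_fderiv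
    ((((ha.fun_mul (hasFDerivAt_coord 0 y)).smul_const _).fun_add
      ((ha.fun_mul (hasFDerivAt_coord 1 y)).smul_const _)).fun_add
      ((hg.fun_mul (hasFDerivAt_coord 2 y)).smul_const _)) ?_
  ext v i; fin_cases i <;> simp [Phi'] <;> ring

theorem det_eq (A : E3 →L[ℝ] E3) :
    A.det = (Matrix.of fun i j => A (EuclideanSpace.single j 1) i).det := by
  rw [ContinuousLinearMap.det, ← LinearMap.det_toMatrix (EuclideanSpace.basisFun (Fin 3) ℝ).toBasis]
  congr 1

theorem det_Phi' {y : E3} (hy : y ≠ 0) :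
    (Phi' y).det = al y * (ga y ^ 2 - 2601 / 1024 * (y 2 * xi y) ^ 2 * xi y ^ 2) := by
  have h := xi_rel hy
  rw [det_eq, Matrix.det_fin_three]
  simp [Phi', rad]
  unfold al ga
  generalize xi y = x at *
  linear_combination (45 / 32 * x ^ 2 * (289 / 320 - 45 / 64 * (x * x)) *
    (289 / 320 + 45 / 64 * (x * x))) * h

theorem log2_pos : 0 < Real.log 2 := Real.log_pos (by norm_num)

theorem hasDerivAt_hh {t : ℝ} (ht : 257 / 160 ≤ t) :
    HasDerivAt hh (51 / 16 / ((t ^ 2 - 2601 / 1024) * (8 * Real.log 2))) t := by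
  have h1 : t - 51 / 32 ≠ 0 := by linarith
  have h2 : t + 51 / 32 ≠ 0 := by linarith
  have h3 := log2_pos
  have h := ((((hasDerivAt_id t).add_const (51 / 32)).fun_div ((hasDerivAt_id t).sub_const (51 / 32))
    h1).log (div_ne_zero h2 h1)).div_const (8 * Real.log 2) |>.const_sub 1
  refine HasDerivAt.congr_deriv h ?_
  have : t ^ 2 - 2601 / 1024 = (t - 51 / 32) * (t + 51 / 32) := by ring
  rw [this]
  simp only [id]
  field_simp
  ring

theorem gradSq_test {y : E3} (hy : 1 ≤ ‖y‖) :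
    gradSq (fun _ => 1) (fun x => hh (sg x)) (Phi y) =
      (51 / 16 / ((‖y‖ * al y) ^ 2 * (8 * Real.log 2))) ^ 2 * (‖y‖ * al y) ^ 2 /
        ((‖y‖ * ga y) ^ 2 - 2601 / 1024 * (y 2 * xi y) ^ 2) := by
  have h1 := abs_le.1 (abs_tau_le hy)
  have h2 := S_ge hy
  have e1 := norm_Phi_sub hy
  have e2 := norm_Phi_add hy
  have n1 : Phi y - foc ≠ 0 := norm_pos_iff.1 (by rw [e1]; linarith)
  have n2 : Phi y + foc ≠ 0 := norm_pos_iff.1 (by rw [e2]; linarith)
  have d1 := (hasFDerivAt_norm' n1).comp (Phi y) ((hasFDerivAt_id (Phi y)).sub_const foc)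
  have d2 := (hasFDerivAt_norm' n2).comp (Phi y) ((hasFDerivAt_id (Phi y)).add_const foc)
  have d3 : HasFDerivAt sg _ (Phi y) := (d1.fun_add d2).mul_const (2 : ℝ)⁻¹
  have d4 := (hasDerivAt_hh (t := sg (Phi y)) (by rw [sg_Phi hy]; exact h2)).comp_hasFDerivAt _ d3
  have d5 := fun i => pd_of_hasFDerivAt (F := fun x => hh (sg x)) d4 i
  have hfS : (‖y‖ * ga y) ^ 2 - 2601 / 1024 = (‖y‖ * al y) ^ 2 := by
    have h := xi_mul_norm hy
    unfold ga al
    linear_combination 2601 / 1024 * (xi y * ‖y‖ + 1) * h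
  rw [sg_Phi hy, hfS] at d5
  have q1 := norm_sq_eq (Phi y - foc)
  have q2 := norm_sq_eq (Phi y + foc)
  simp only [gradSq, d5]
  simp only [xi] at d5 ⊢
  rw [e1] at q1
  rw [e2] at q2
  rw [e1, e2]
  simp only [xi] at *
  generalize 51 / 16 / ((‖y‖ * al y) ^ 2 * (8 * Real.log 2)) = c
  rw [← hfS]
  generalize ‖y‖ * ga y = S, y 2 * ‖y‖⁻¹ = τ, Phi y = x at *
  simp [foc] at q1 q2
  simp [Fin.sum_univ_three, Matrix.one_apply, foc]
  have m1 : S - 51 / 32 * τ ≠ 0 := by linarith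
  have m2 : S + 51 / 32 * τ ≠ 0 := by linarith
  have m3 : S ^ 2 - 2601 / 1024 * τ ^ 2 = (S - 51 / 32 * τ) * (S + 51 / 32 * τ) := by ring
  have m4 : S ^ 2 = ((S - 51 / 32 * τ) + (S + 51 / 32 * τ)) ^ 2 / 4 := by ring
  rw [m3, m4]
  generalize S - 51 / 32 * τ = r1, S + 51 / 32 * τ = r2 at *
  field_simp
  linear_combination (-(1024 : ℝ) * 32 ^ 2 * 4 * c ^ 2 * (r2 ^ 2 + r1 * r2)) * q1 +
    (-(1024 : ℝ) * 32 ^ 2 * 4 * c ^ 2 * (r1 ^ 2 + r1 * r2)) * q2

theorem sg_boundary {x : E3} (hx : rho x = 0) : sg x = 257 / 160 := by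
  obtain ⟨y, hy, rfl⟩ := bijOn_iotaL.surjOn (show x ∈ {x | rho x = 0} from hx)
  have hy1 : ‖y‖ = 1 := ell_one_eq_zero.1 hy
  rw [← Phi_sphere hy1, sg_Phi hy1.ge, ga, xi_sphere hy1, hy1]; norm_num

theorem sg_ge {x : E3} (hx : 0 ≤ rho x) : 257 / 160 ≤ sg x := by
  rcases hx.eq_or_lt with h | h
  · rw [sg_boundary h.symm]
  · obtain ⟨y, hy, rfl⟩ := Phi_surj h
    rw [sg_Phi hy.le]; exact S_ge hy.le

theorem test_boundary {x : E3} (hx : rho x = 0) : hh (sg x) = 0 := by
  have := log2_pos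
  rw [sg_boundary hx, hh, show ((257 / 160 + 51 / 32) / (257 / 160 - 51 / 32) : ℝ) = 2 ^ 8 by norm_num,
    Real.log_pow]
  field_simp; norm_num

theorem lipschitz_sg : LipschitzWith 1 sg := by
  refine LipschitzWith.of_dist_le_mul fun x y => ?_
  have h1 := abs_norm_sub_norm_le (x - foc) (y - foc)
  have h2 := abs_norm_sub_norm_le (x + foc) (y + foc)
  rw [sub_sub_sub_cancel_right] at h1
  rw [add_sub_add_right_eq_sub] at h2
  rw [Real.dist_eq, dist_eq_norm, NNReal.coe_one, one_mul, abs_le] at *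
  unfold sg
  constructor <;> linarith [h1.1, h1.2, h2.1, h2.2]

theorem lipschitz_hh : LipschitzOnWith 100 hh (Ici (257 / 160)) := by
  refine (convex_Ici _).lipschitzOnWith_of_nnnorm_hasDerivWithin_le
    (fun t ht => (hasDerivAt_hh ht).hasDerivWithinAt) (fun t ht => ?_)
  have ht' : 257 / 160 ≤ t := ht
  have h1 : 1 / 25 ≤ t ^ 2 - 2601 / 1024 := by nlinarith
  have h2 : 1 / 2 < Real.log 2 := by have := Real.log_two_gt_d9; linarith
  rw [← NNReal.coe_le_coe, coe_nnnorm, Real.norm_eq_abs, abs_of_nonneg (by positivity),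
    div_le_iff₀ (by positivity)]
  push_cast
  nlinarith

theorem tendsto_test : Tendsto (fun x => hh (sg x)) (cocompact E3) (𝓝 1) := by
  have h1 : Tendsto sg (cocompact E3) atTop := by
    refine tendsto_atTop_mono (fun x => ?_) (tendsto_norm_cocompact_atTop (E := E3))
    have := norm_add_le (x - foc) (x + foc)
    rw [show x - foc + (x + foc) = (2 : ℝ) • x by rw [two_smul]; abel, norm_smul] at this
    simp only [Real.norm_ofNat] at this
    unfold sg; linarith
  have h2 : Tendsto (fun t : ℝ => (t + 51 / 32) / (t - 51 / 32)) atTop (𝓝 1) := by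
    have h3 : Tendsto (fun t : ℝ => 1 + 51 / 16 * (t - 51 / 32)⁻¹) atTop (𝓝 (1 + 51 / 16 * 0)) :=
      ((tendsto_inv_atTop_zero.comp (tendsto_atTop_add_const_right _ (-(51 / 32))
        tendsto_id)).const_mul _).const_add _
    rw [mul_zero, add_zero] at h3
    refine h3.congr' ?_
    filter_upwards [eventually_ge_atTop 2] with t ht
    have : t - 51 / 32 ≠ 0 := by linarith
    rw [eq_div_iff this, add_mul, mul_assoc, inv_mul_cancel₀ this]; ring
  have h4 : Tendsto hh atTop (𝓝 (1 - Real.log 1 / (8 * Real.log 2))) :=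
    ((h2.log one_ne_zero).div_const _).const_sub _
  rw [Real.log_one, zero_div, sub_zero] at h4
  exact h4.comp h1

theorem volume_boundary : volume {x : E3 | rho x = 0} = 0 := by
  rw [← image_iotaL (fun t => t = 0), setOf_ell_one_eq,
    Measure.addHaar_image_continuousLinearMap, Measure.addHaar_sphere, mul_zero]

theorem radial_integral :
    ∫⁻ r in Ioi (1 : ℝ), ENNReal.ofReal (320 / ((17 * r - 15) * (17 * r + 15))) =
      ENNReal.ofReal (128 / 51 * Real.log 2) := by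
  have hd : ∀ r ∈ Ici (1 : ℝ), HasDerivAt (fun r => 32 / 51 * Real.log ((17 * r - 15) / (17 * r + 15)))
      (320 / ((17 * r - 15) * (17 * r + 15))) r := by
    intro r hr
    have hr' : 1 ≤ r := hr
    have h1 : 17 * r - 15 ≠ 0 := by linarith
    have h2 : 17 * r + 15 ≠ 0 := by linarith
    have h := (((((hasDerivAt_id r).const_mul 17).sub_const 15).fun_div
      (((hasDerivAt_id r).const_mul 17).add_const 15) h2).log (div_ne_zero h1 h2)).const_mul (32 / 51)
    refine HasDerivAt.congr_deriv h ?_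
    simp only [id]
    field_simp
    ring
  have hpos : ∀ r ∈ Ioi (1 : ℝ), 0 ≤ 320 / ((17 * r - 15) * (17 * r + 15)) := by
    intro r hr
    have hr' : 1 < r := hr
    have h1 : 0 < 17 * r - 15 := by linarith
    positivity
  have hlim : Tendsto (fun r : ℝ => 32 / 51 * Real.log ((17 * r - 15) / (17 * r + 15))) atTop
      (𝓝 (32 / 51 * Real.log 1)) := by
    refine (Tendsto.log ?_ one_ne_zero).const_mul _
    have h3 : Tendsto (fun t : ℝ => 1 - 30 * (17 * t + 15)⁻¹) atTop (𝓝 (1 - 30 * 0)) :=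
      ((tendsto_inv_atTop_zero.comp (tendsto_atTop_add_const_right _ 15
        (tendsto_id.const_mul_atTop (by norm_num)))).const_mul _).const_sub _
    rw [mul_zero, sub_zero] at h3
    refine h3.congr' ?_
    filter_upwards [eventually_ge_atTop 2] with t ht
    have : 17 * t + 15 ≠ 0 := by linarith
    field_simp; ring
  rw [← ofReal_integral_eq_lintegral_ofReal (integrableOn_Ioi_deriv_of_nonneg' hd hpos hlim)
    ((ae_restrict_iff' measurableSet_Ioi).2 (Eventually.of_forall hpos)),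
    integral_Ioi_of_hasDerivAt_of_nonneg' hd hpos hlim]
  congr 1
  rw [Real.log_one, show ((17 * 1 - 15) / (17 * 1 + 15) : ℝ) = (2 ^ 4)⁻¹ by norm_num, Real.log_inv,
    Real.log_pow]
  push_cast; ring

theorem capacity_rho_le : capacity (fun _ => 1) rho ≤ ENNReal.ofReal (23 / 40) := by
  refine iInf_le_of_le (fun x => hh (sg x)) (iInf_le_of_le
    ⟨100 * 1, lipschitz_hh.comp lipschitz_sg.lipschitzOnWith (fun x hx => sg_ge hx)⟩
    (iInf_le_of_le (fun x hx => test_boundary hx)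
      (iInf_le_of_le (tendsto_test.mono_left inf_le_left) ?_)))
  have hm : MeasurableSet {x : E3 | 1 < ‖x‖} :=
    (isOpen_lt continuous_const continuous_norm).measurableSet
  have hsub : {x : E3 | 0 ≤ rho x} ⊆ {x | rho x = 0} ∪ Phi '' {y | 1 < ‖y‖} := by
    intro x hx
    rcases (show 0 ≤ rho x from hx).eq_or_lt with h | h
    · exact Or.inl h.symm
    · exact Or.inr (Phi_surj h)
  refine (lintegral_mono_set hsub).trans ((lintegral_union_le _ _ _).trans ?_)
  rw [setLIntegral_measure_zero _ _ volume_boundary, zero_add,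
    lintegral_image_eq_lintegral_abs_det_fderiv_mul volume hm
      (fun y hy => (hasFDerivAt_Phi (ne_zero_of_one_le (le_of_lt hy))).hasFDerivWithinAt) Phi_injOn]
  have hL := log2_pos
  set κ : ℝ := 1 / (4 * Real.pi) * (51 / 16 / (8 * Real.log 2)) ^ 2 with hκ
  have hκ0 : 0 ≤ κ := by positivity
  rw [setLIntegral_congr_fun hm (g := fun y => ENNReal.ofReal
    (κ * (320 / ((17 * ‖y‖ - 15) * (17 * ‖y‖ + 15)) / ‖y‖ ^ 2))), lintegral_polar _ (by fun_prop)]
  · have e : ∀ σ : S2, ∫⁻ r in Ioi (1 : ℝ), ENNReal.ofReal (r ^ 2) * ENNReal.ofReal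
        (κ * (320 / ((17 * ‖r • (σ : E3)‖ - 15) * (17 * ‖r • (σ : E3)‖ + 15)) / ‖r • (σ : E3)‖ ^ 2)) =
        ENNReal.ofReal κ * ENNReal.ofReal (128 / 51 * Real.log 2) := by
      intro σ
      rw [← radial_integral, ← lintegral_const_mul' _ _ ENNReal.ofReal_ne_top]
      refine setLIntegral_congr_fun measurableSet_Ioi fun r hr => ?_
      have hr0 : (0 : ℝ) < r := lt_trans one_pos hr
      have hn : ‖r • (σ : E3)‖ = r := by simp [norm_smul, abs_of_pos hr0]
      simp only [hn]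
      rw [← ENNReal.ofReal_mul (by positivity), ← ENNReal.ofReal_mul hκ0]
      congr 1
      field_simp
    simp only [e]
    rw [lintegral_const, ← ofReal_measureReal, sig_univ, ← ENNReal.ofReal_mul hκ0,
      ← ENNReal.ofReal_mul (by positivity)]
    refine ENNReal.ofReal_le_ofReal ?_
    have : κ * (128 / 51 * Real.log 2) * (4 * Real.pi) = 51 / 128 / Real.log 2 := by
      rw [hκ]; field_simp; norm_num
    rw [this, div_le_iff₀ hL]
    have := Real.log_two_gt_d9
    linarith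
  · intro y hy
    have hy1 : 1 ≤ ‖y‖ := le_of_lt hy
    have h1 := abs_le.1 (abs_tau_le hy1)
    have h2 := S_ge hy1
    have h3 := al_ge hy1
    have h4 := xi_mul_norm hy1
    have hD : 0 < (‖y‖ * ga y) ^ 2 - 2601 / 1024 * (y 2 * xi y) ^ 2 := by nlinarith
    have hdet : (Phi' y).det = al y * xi y ^ 2 *
        ((‖y‖ * ga y) ^ 2 - 2601 / 1024 * (y 2 * xi y) ^ 2) := by
      rw [det_Phi' (ne_zero_of_one_le hy1)]
      linear_combination (-(al y * ga y ^ 2 * (xi y * ‖y‖ + 1))) * h4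
    have hx := xi_pos (ne_zero_of_one_le hy1)
    simp only
    rw [gradSq_test hy1, hdet, abs_of_pos (by positivity), ← ENNReal.ofReal_mul (by positivity)]
    congr 1
    have hal : (17 * ‖y‖ - 15) * (17 * ‖y‖ + 15) = 320 * al y * ‖y‖ ^ 2 := by
      unfold al; linear_combination 225 * (xi y * ‖y‖ + 1) * h4
    rw [hal, hκ, Matrix.det_one, Real.sqrt_one]
    generalize (‖y‖ * ga y) ^ 2 - 2601 / 1024 * (y 2 * xi y) ^ 2 = D at *
    rw [xi]
    field_simp

end Pool.Agent.MP_69a10d_gt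

end
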